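import Pool.Agent.T9h32.OR.Fin
import Pool.Agent.N829.QD.Fin

/-!
# Ordinary representations with scalar reduction over all `p`-adic fields: most sets of `r` primes

Let `r ≥ 0` and `δ > 0`. For all large primes `p` the following holds. For all primes `q₁ ≡ 1 mod p`
but a proportion of at most `δ`, for all primes `q₂ ≡ 1 mod p` but a proportion of at most `δ`, and so
on until `q_r`, let `S` be a finite set which consists of some of the `q_i` and of primes
`≢ 0, 1 mod p`. Let `A` be the ring of integers of any finite extension `E` of `ℚ_p`, with any residue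
field and any ramification index `e`, and let `ρ : Gal(ℚbar/ℚ) → GL_2(A)` be continuous, unramified
outside `S` and `p`, residually twice a character and ordinary at `p` (the decomposition group
preserves a line of `E ^ 2`). If `2 e < p - 1`, or if the inertia groups at the `q_i` act unipotently,
then `ρ` is reducible over `E`.

More precisely, for every `r` there is a nonzero integral polynomial `P` in the linking numbers
`λ i j`, `i ≠ j`, the classes `u i` of `(q i - 1) / p` and the linking numbers `b i` of `p` and `q i`,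
which does not depend on `p`, such that `P(λ, u, b) ≠ 0` in `ℤ/p` implies the statement for
`q 0, …, q (r - 1)` and all odd `p`.

As a representation whose reduction is twice a character is even (`p` is odd), the conjecture predicts
that there are no irreducible ordinary `ρ` of this kind which are de Rham with different Hodge-Tate
weights at `p`. The theorem shows this for most sets of primes, and for all ordinary `ρ`, de Rham or
not. The case of the residue field `𝔽_p`, with an explicit lower bound for `p`, is the starting file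
`MP_b583a4_nt/MostTuples`; its count of solutions over `𝔽_p` says nothing about solutions over larger
fields, which are needed here.

Proof. By the criterion of the starting files (`OrdinaryScalar`) it is enough to show that matrices `C`
of trace `0` and `T i` of square `0` over an algebraically closed field of characteristic `p` with
`[u i C + ∑ λ i j T j, T i] = ε u i T i`, `ε ∈ {0, 1}`, such that `C` and `∑ b j T j` have a common
eigenvector, have a common eigenvector; this means that the `T i` are proportional. (The condition on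
pairs of characters is the case `ε = 0` and `C = (0, x; y, 0)`.) The matrix `T i` is the square of a
vector `w i`, and we may suppose that the eigenvector is `(1, 0)`, so that `C` is upper triangular. We
get `2 ∑ λ i j ω(w j, w i) w j = u i (2 C - ε) w i`, with the determinant `ω`, and `∑ b j β j ^ 2 = 0`,
`β j` the second coordinate of `w j`. Suppose that the `λ i j`, `u i` and `b i` are algebraically
independent over `ℤ` (in any field) and that all `w i` are nonzero and not all are parallel; after a
change of coordinates `w a = (0, 1)`, and so `b a` can be computed from the other `b j` and the `β j`.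
If the `w i` are on at least three lines, then two of the `λ i j` for each `i` can be computed from the
other ones, the `u i`, the two entries of `C` and the `2 (r - 1)` coordinates of the other `w i`: all
`r ^ 2 + r` parameters are in a field generated by `r ^ 2 + r - 1` elements. If they are on two lines,
then `ε = 0`, as `2 C - ε` exchanges the two lines, and by homogeneity the squares of the coordinates
can be divided by two of them: one of the `λ i j` for each `i` can be computed from the other ones,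
`r - 2` quotients and two more elements, and this gives again `r ^ 2 + r - 1` generators. Both are
contradictions. So the ideal of the relations over the ring of polynomials in the `λ i j`, `u i` and
`b i` contains a nonzero polynomial in these alone, which vanishes at all specialisations which have
solutions. Finally, the linking numbers of a new prime with `p` and the given ones are equidistributed
up to scaling (`Pool.Agent.Q202.QT.densN` of helper202, Chebotarev), and by Schwartz and Zippel a
proportion of `O(1/p)` of the systems is bad.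

Written by helper32 with helpers 65 (`OR/Pol`), 82 (`OR/Mat`) and 96 (`OR/Eig`).
-/

set_option autoImplicit false

open NumberField Matrix IsLocalRing

namespace Pool.Agent.Results.MP_f68ac8_nt.MostSetsOrdinary

open Finset Filter
open Pool.Agent.Q202.RT Pool.Agent.Q202.QT
open Pool.Agent.T9h32.OR (GdO BadO badO_scInv badO_card exists_poly_gdO noTuple_of_gdO
  noPair_of_noTuple)
open Pool.Agent.W569.TG (lk)

/-- the absolute Galois group of `ℚ`, with the Krull topology -/
abbrev AbsGal : Type := Gal(AlgebraicClosure ℚ/ℚ)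

/-- `τ` lies in the inertia group at the ideal `P` of the ring of all algebraic integers. -/
def InInertia (P : Ideal (𝓞 (AlgebraicClosure ℚ))) (τ : AbsGal) : Prop :=
  ∀ x : 𝓞 (AlgebraicClosure ℚ), τ • x - x ∈ P

/-- The decomposition group at the ideal `P` of the ring of all algebraic integers. -/
def Decomposition (P : Ideal (𝓞 (AlgebraicClosure ℚ))) : Set AbsGal :=
  {g | ∀ x : 𝓞 (AlgebraicClosure ℚ), g • x ∈ P ↔ x ∈ P}

/-- `ρ` is trivial on the inertia groups at all maximal ideals of the ring of all algebraic integers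
which contain neither `p` nor an `l ∈ S`. -/
def UnramifiedOutside {A : Type} [CommRing A] (p : ℕ) (S : Finset ℕ) (ρ : AbsGal →* GL (Fin 2) A) :
    Prop :=
  ∀ P : Ideal (𝓞 (AlgebraicClosure ℚ)), P.IsMaximal →
    (∀ l ∈ S, (l : 𝓞 (AlgebraicClosure ℚ)) ∉ P) → (p : 𝓞 (AlgebraicClosure ℚ)) ∉ P →
      ∀ τ, InInertia P τ → ρ τ = 1

/-- There is a character `a` with values in the residue field such that `a g` is the only
eigenvalue of the reduction of `ρ g`, for all `g`; by Brauer and Nesbitt this says that the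
semisimplification of the reduction of `ρ` is the sum of two copies of `a`. -/
def ResiduallyScalar {A : Type} [CommRing A] [IsLocalRing A] (ρ : AbsGal →* GL (Fin 2) A) : Prop :=
  ∃ a : AbsGal →* (ResidueField A)ˣ, ∀ g,
    IsNilpotent ((ρ g : Matrix (Fin 2) (Fin 2) A).map (residue A) -
      (a g : ResidueField A) • (1 : Matrix (Fin 2) (Fin 2) (ResidueField A)))

/-- The elements of `D` preserve a line (over the fraction field of `A`); for `D` the whole group
this says that `ρ` is reducible over the fraction field. -/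
def StableLine {A : Type} [CommRing A] (ρ : AbsGal →* GL (Fin 2) A) (D : Set AbsGal) : Prop :=
  ∃ v : Fin 2 → A, v ≠ 0 ∧ ∀ g ∈ D, ∃ c : A, (ρ g : Matrix (Fin 2) (Fin 2) A) *ᵥ v = c • v

/-- The inertia groups at the primes above the `l ∈ S` with `l ≡ 1 mod p` act unipotently. -/
def UnipotentInertia {A : Type} [CommRing A] (p : ℕ) (S : Finset ℕ) (ρ : AbsGal →* GL (Fin 2) A) :
    Prop :=
  ∀ l ∈ S, p ∣ l - 1 → ∀ P : Ideal (𝓞 (AlgebraicClosure ℚ)), P.IsMaximal →
    (l : 𝓞 (AlgebraicClosure ℚ)) ∈ P → ∀ τ, InInertia P τ →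
      ((ρ τ : Matrix (Fin 2) (Fin 2) A) - 1) ^ 2 = 0

/-- `OrdinaryReducible p S`: let `A` be a complete discrete valuation ring with finite residue field in
which `p` has the valuation `e ≥ 1` (the ring of integers of a finite extension of `ℚ_p`), and `ρ` a
continuous representation of the absolute Galois group of `ℚ` in `GL_2(A)`, unramified outside `S` and
`p`, residually twice a character, such that `2 e < p - 1` or the inertia groups at the `l ∈ S` with
`l ≡ 1 mod p` act unipotently. If the decomposition group at a prime above `p` preserves a line, then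
the whole group does. -/
def OrdinaryReducible (p : ℕ) (S : Finset ℕ) : Prop :=
  ∀ (A : Type) [CommRing A] [IsDomain A] [IsDiscreteValuationRing A]
    [IsAdicComplete (maximalIdeal A) A] [TopologicalSpace A],
    IsAdic (maximalIdeal A) → Finite (ResidueField A) →
    ∀ e : ℕ, 1 ≤ e → (p : A) ∈ maximalIdeal A ^ e → (p : A) ∉ maximalIdeal A ^ (e + 1) →
    ∀ ρ : AbsGal →* GL (Fin 2) A, Continuous ρ → UnramifiedOutside p S ρ → ResiduallyScalar ρ →
      (2 * e < p - 1 ∨ UnipotentInertia p S ρ) →
      ∀ P : Ideal (𝓞 (AlgebraicClosure ℚ)), P.IsMaximal → (p : 𝓞 (AlgebraicClosure ℚ)) ∈ P →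
        StableLine ρ (Decomposition P) → StableLine ρ Set.univ

/-- The linking number `λ l j` of the distinct primes `l` and `j`: the value of the homomorphism
`χ j : (ℤ/j)ˣ → ℤ/p` at the class of `l` (and `0` if `l` and `j` are not coprime). -/
noncomputable def linking {p : ℕ} (χ : ∀ j : ℕ, (ZMod j)ˣ →* Multiplicative (ZMod p))
    (l j : ℕ) : ZMod p :=
  open Classical in if h : Nat.Coprime l j then
    Multiplicative.toAdd (χ j (ZMod.unitOfCoprime l h)) else 0

/-- The variables of the polynomial: `λ i j` for `i ≠ j`, then `u i`, then `b i`. -/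
abbrev Variables (r : ℕ) : Type := ({x : Fin r × Fin r // x.1 ≠ x.2} ⊕ Fin r) ⊕ Fin r

/-- The linking numbers `λ i j` of the numbers `q i`, the classes `u i` of `(q i - 1) / p` modulo `p`,
and the linking numbers `b i` of `p` and `q i`. -/
noncomputable def numbers {p r : ℕ} (χ : ∀ j : ℕ, (ZMod j)ˣ →* Multiplicative (ZMod p))
    (q : Fin r → ℕ) : Variables r → ZMod p :=
  Sum.elim (Sum.elim (fun x => linking χ (q x.1.1) (q x.1.2))
    fun i => (((q i - 1) / p : ℕ) : ZMod p)) fun i => linking χ p (q i)

/-- `Criterion r P`: let `p` be an odd prime and `S` a finite set of prime numbers `l ≠ p` whose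
members congruent to `1` modulo `p` are among the `r` different numbers `q 0, …, q (r - 1)`. If the
value of `P` at the numbers `λ i j`, `u i`, `b i` is not zero in `ℤ/p`, for some nontrivial
homomorphisms `χ l`, then `OrdinaryReducible p S` holds. -/
def Criterion (r : ℕ) (P : MvPolynomial (Variables r) ℤ) : Prop :=
  ∀ (p : ℕ) [Fact p.Prime], p ≠ 2 → ∀ S : Finset ℕ, (∀ l ∈ S, l.Prime ∧ l ≠ p) →
    ∀ q : Fin r → ℕ, Function.Injective q → (∀ l ∈ S, p ∣ l - 1 → ∃ i, l = q i) →
    ∀ χ : ∀ j : ℕ, (ZMod j)ˣ →* Multiplicative (ZMod p), (∀ l ∈ S, p ∣ l - 1 → ∃ x, χ l x ≠ 1) →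
    MvPolynomial.aeval (numbers χ q) P ≠ 0 → OrdinaryReducible p S

/-- `AllReducible p T`: `OrdinaryReducible p S` holds for all finite sets `S` of prime numbers `l ≠ p`
whose members congruent to `1` modulo `p` are in `T`. -/
def AllReducible (p : ℕ) (T : Set ℕ) : Prop :=
  ∀ S : Finset ℕ, (∀ l ∈ S, l.Prime ∧ l ≠ p) → (∀ l ∈ S, p ∣ l - 1 → l ∈ T) →
    OrdinaryReducible p S

open Classical in
/-- The primes `q ≤ x` with `p ∣ q - 1`. -/
noncomputable def Pr (p x : ℕ) : Finset ℕ := (range (x + 1)).filter fun q => q.Prime ∧ p ∣ q - 1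

open Classical in
/-- `Most p δ R m T`: for all primes `q₁ ≡ 1 mod p`, `q₁ ∉ T`, but a proportion of at most `δ`, for all
primes `q₂ ≡ 1 mod p`, `q₂ ∉ T ∪ {q₁}`, but a proportion of at most `δ`, …, for all primes
`q_m ≡ 1 mod p`, `q_m ∉ T ∪ {q₁, …, q_{m-1}}`, but a proportion of at most `δ`, the set
`T ∪ {q₁, …, q_m}` has the property `R`. -/
def Most (p : ℕ) (δ : ℝ) (R : Set ℕ → Prop) : ℕ → Set ℕ → Prop
  | 0, T => R T
  | m + 1, T => ∀ ε : ℝ, 0 < ε → ∀ᶠ x : ℕ in atTop, (1 - δ - ε) * ((Pr p x).card : ℝ) ≤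
      (((Pr p x).filter fun q => q ∉ T ∧ Most p δ R m (insert q T)).card : ℝ)

theorem Pr_eq (p x : ℕ) [Fact p.Prime] : Pr p x = P1 p x := by
  ext l
  rw [mem_P1, Pr, mem_filter, mem_range]
  constructor
  · rintro ⟨h1, h2, h3⟩
    exact ⟨by omega, h2, h3⟩
  · rintro ⟨h1, h2, h3⟩
    exact ⟨by omega, h2, h3⟩

section
variable {p : ℕ} [Fact p.Prime]

theorem reducible_of_gd (hp2 : p ≠ 2) (S : Finset ℕ) (hS : ∀ l ∈ S, l.Prime ∧ l ≠ p)
    {r : ℕ} (q : Fin r → ℕ) (hq : Function.Injective q) (hSq : ∀ l ∈ S, p ∣ l - 1 → ∃ i, l = q i)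
    (χ : ∀ j : ℕ, (ZMod j)ˣ →* Multiplicative (ZMod p)) (hχ : ∀ l ∈ S, p ∣ l - 1 → ∃ x, χ l x ≠ 1)
    (hU : ∀ i, lv p (q i) ≠ 0)
    (hG : GdO (fun i j => lk χ (q i) (q j)) (fun i => lv p (q i)) (fun i => lk χ p (q i))) :
    OrdinaryReducible p S := by
  classical
  have hp : p.Prime := Fact.out
  have hmem : ∀ l ∈ Pool.Agent.Results.MP_b583a4_nt.OrdinaryScalar.Tame p S,
      l ∈ S ∧ p ∣ l - 1 := fun l hl => Finset.mem_filter.1 hl
  have hrange : ∀ l ∈ Pool.Agent.Results.MP_b583a4_nt.OrdinaryScalar.Tame p S,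
      l ∈ Set.range q := fun l hl => by
    obtain ⟨i, hi⟩ := hSq l (hmem l hl).1 (hmem l hl).2
    exact ⟨i, hi.symm⟩
  have hS' : ∀ l ∈ S, l.Prime ∧ l ≠ p ∧ ¬ p ^ 2 ∣ l - 1 := by
    intro l hl
    refine ⟨(hS l hl).1, (hS l hl).2, fun h => ?_⟩
    obtain ⟨i, rfl⟩ := hSq l hl ((dvd_pow_self p two_ne_zero).trans h)
    apply hU i
    unfold lv
    rw [ZMod.natCast_eq_zero_iff]
    obtain ⟨m, hm⟩ := h
    refine ⟨m, ?_⟩
    rw [hm, pow_two, mul_assoc, Nat.mul_div_cancel_left _ hp.pos]
  intro A _ _ _ _ _ hA hfin e he h0 h0' ρ hρ hur hres hUn P hP hpP hloc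
  have hpm : (p : A) ∈ maximalIdeal A := Ideal.pow_le_self (by omega) h0
  have hchar : CharP (ResidueField A) p := Pool.Agent.TH831.OE.charP_res hp hpm
  have hN0 : Pool.Agent.Results.MP_b583a4_nt.OrdinaryScalar.NoTuple (ResidueField A) p S χ 0 :=
    noTuple_of_gdO hq hrange hG (Or.inl rfl)
  have hN1 : Pool.Agent.Results.MP_b583a4_nt.OrdinaryScalar.NoTuple (ResidueField A) p S χ 1 :=
    noTuple_of_gdO hq hrange hG (Or.inr rfl)
  exact Pool.Agent.Results.MP_b583a4_nt.OrdinaryScalar.result p hp2 S hS' A hA hfin e he h0 h0' χ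
    (fun l hl => hχ l (hmem l hl).1 (hmem l hl).2)
    (Or.inr ⟨noPair_of_noTuple hN0, hN1, Or.inr hN0⟩) ρ hρ
    (fun P hP hSP hpP τ hτ => hur P hP hSP hpP τ hτ) hres
    (hUn.imp id fun h l hl P hP hlP τ hτ => h l (hmem l hl).1 (hmem l hl).2 P hP hlP τ hτ)
    P hP hpP hloc

theorem good_of (hp2 : p ≠ 2) (χ : ∀ j : ℕ, (ZMod j)ˣ →* Multiplicative (ZMod p))
    (hχ : Kr χ) {r : ℕ} (l : Fin r → ℕ) (hli : Function.Injective l)
    (hG : ¬ BadO r (N829.QD.dat χ l)) : AllReducible p (Set.range l) := by
  unfold BadO at hG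
  push Not at hG
  obtain ⟨g1, g2⟩ := hG
  intro S hS hT
  refine reducible_of_gd hp2 S hS l hli (fun q hq h => ?_) χ
    (fun q hq hpq => (hχ q (hS q hq).1 hpq).1) g1 g2
  obtain ⟨i, hi⟩ := hT q hq h
  exact ⟨i, hi.symm⟩

theorem most_of (hp2 : p ≠ 2) (χ : ∀ j : ℕ, (ZMod j)ˣ →* Multiplicative (ZMod p))
    (hχ : Kr χ) {η δ : ℝ} (hη : 0 < η) (hδ : η + 1 / p ≤ δ) (m : ℕ) : ∀ (k : ℕ) (l : Fin k → ℕ),
      (∀ i, (l i).Prime) → (∀ i, p ∣ l i - 1) → Function.Injective l →
      N829.QD.GdN BadO η m k (N829.QD.dat χ l) → Most p δ (AllReducible p) m (Set.range l) := by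
  classical
  have hp : p.Prime := Fact.out
  have hp0 : (0 : ℝ) < p := by exact_mod_cast hp.pos
  have hp1 : (1 : ℝ) ≤ p := by exact_mod_cast hp.one_lt.le
  induction m with
  | zero =>
    intro k l hl hpl hli hG
    exact good_of hp2 χ hχ l hli (N829.QD.gd_zero hG)
  | succ m ih =>
    intro k l hl hpl hli hG ε hε
    have hst := N829.QD.gd_step hη hG
    obtain ⟨Good, hGood⟩ : ∃ G : (Fin (k + 1) → ZMod p) → (Fin (k + 1) → ZMod p) → Prop,
        G = fun w s => w ≠ 0 ∧ N829.QD.GdN BadO η m (k + 1) (ext (N829.QD.dat χ l) w s) :=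
      ⟨_, rfl⟩
    have hst' : (1 - η) * ((p : ℝ) ^ (k + 1) * (p : ℝ) ^ (k + 1)) - (p : ℝ) ^ (k + 1) ≤
        ((∑ w : Fin (k + 1) → ZMod p,
          ((univ : Finset (Fin (k + 1) → ZMod p)).filter fun s => Good w s).card : ℕ) : ℝ) := by
      subst hGood
      convert hst
    have hd := densN (p := p) hp2 χ hχ l hl hpl hli Good
      (fun w s h => by rw [hGood] at h; exact h.1) (fun w s c hc h => by
        rw [hGood] at h ⊢
        refine ⟨fun h0 => h.1 (by
          funext j
          exact (mul_eq_zero.1 (congrFun h0 j)).resolve_left hc), ?_⟩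
        unfold N829.QD.GdN
        rw [N829.QD.Nb_wsc badO_scInv m k hc]
        exact h.2) (1 - δ) (by
        have : (0 : ℝ) < 1 / p := by positivity
        linarith) (by
        rw [le_div_iff₀ (by
          have : 0 < Fintype.card (Fin (k + 1) → ZMod p) := Fintype.card_pos
          positivity), Fintype.card_fun, ZMod.card, Fintype.card_fin]
        refine le_trans ?_ (hst'.trans (le_of_eq (by congr!)))
        push_cast
        have h1 : (0 : ℝ) < (p : ℝ) ^ (k + 1) := by positivity
        have h2 : (p : ℝ) ^ (k + 1) * 1 ≤ (p : ℝ) ^ (k + 1) * ((1 / p) * (p : ℝ) ^ (k + 1)) := by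
          refine mul_le_mul_of_nonneg_left ?_ h1.le
          rw [pow_succ, one_div, mul_comm ((p : ℝ) ^ k), inv_mul_cancel_left₀ hp0.ne']
          exact one_le_pow₀ hp1
        have h3 : (1 - δ) * ((p : ℝ) ^ (k + 1) * (p : ℝ) ^ (k + 1)) ≤
            (1 - η - 1 / p) * ((p : ℝ) ^ (k + 1) * (p : ℝ) ^ (k + 1)) :=
          mul_le_mul_of_nonneg_right (by linarith) (by positivity)
        linarith) ε hε
    filter_upwards [hd] with x hx
    rw [Pr_eq]
    refine le_trans hx (Nat.cast_le.2 (card_le_card ?_))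
    intro q hq
    obtain ⟨h1, h2, h34⟩ := (@Finset.mem_filter _ _ _ _ _).1 hq
    rw [hGood] at h34
    obtain ⟨h3, h4⟩ := h34
    obtain ⟨-, hqp, hpq⟩ := mem_P1.1 h1
    simp only [Finset.mem_filter]
    refine ⟨h1, fun ⟨i, hi⟩ => h2 i hi.symm, ?_⟩
    rw [← Fin.range_cons]
    refine ih (k + 1) (Fin.cons q l) ?_ ?_ ?_ ?_
    · intro i
      refine Fin.cases ?_ (fun j => ?_) i
      · exact hqp
      · exact hl j
    · intro i
      refine Fin.cases ?_ (fun j => ?_) i
      · exact hpq
      · exact hpl j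
    · rw [Fin.cons_injective_iff]
      exact ⟨fun ⟨i, hi⟩ => h2 i hi.symm, hli⟩
    · rw [N829.QD.dat_cons χ l hqp]
      exact h4

end

theorem most (r : ℕ) (δ : ℝ) (hδ : 0 < δ) :
    ∃ p₀ : ℕ, ∀ (p : ℕ) [Fact p.Prime], p₀ ≤ p → Most p δ (AllReducible p) r ∅ := by
  classical
  obtain ⟨d, c, hc, hdc⟩ := badO_card r
  obtain ⟨B, hB⟩ := exists_nat_gt ((d : ℝ) / (δ / 2) ^ r + 2 / δ)
  refine ⟨3 + c + B, ?_⟩
  intro p _ hp0
  have hp : p.Prime := Fact.out
  have hpp : (0 : ℝ) < p := by exact_mod_cast hp.pos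
  have hBp : (B : ℝ) ≤ p := by
    have : B ≤ p := by omega
    exact_mod_cast this
  have hpc : ¬ p ∣ c := fun h => by
    have := Nat.le_of_dvd (Nat.pos_of_ne_zero hc) h
    omega
  have hcard := hdc p (by omega) hpc
  obtain ⟨χ, hχ, -⟩ := extend (p := p) (fun _ => 1) ∅ (fun j hj => absurd hj (Set.notMem_empty j))
  have hd2 : (0 : ℝ) < (δ / 2) ^ r := by positivity
  have h1 : (d : ℝ) < (δ / 2) ^ r * p := by
    have h2 : (d : ℝ) / (δ / 2) ^ r < p := by
      have : (0 : ℝ) < 2 / δ := by positivity
      linarith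
    rwa [div_lt_iff₀ hd2, mul_comm] at h2
  have h3 : 1 / (p : ℝ) ≤ δ / 2 := by
    have h4 : 2 / δ < p := by
      have : (0 : ℝ) ≤ (d : ℝ) / (δ / 2) ^ r := by positivity
      linarith
    rw [div_lt_iff₀ hδ] at h4
    rw [div_le_div_iff₀ hpp (by norm_num)]
    linarith
  have hG : N829.QD.GdN (p := p) BadO (δ / 2) r 0 (N829.QD.dat χ (Fin.elim0 : Fin 0 → ℕ)) := by
    refine N829.QD.gd_init ?_ _
    have h5 : ((((Z p r).filter fun D => BadO r D).card : ℕ) : ℝ) * p ≤
        d * (p : ℝ) ^ (r ^ 2 + r) := by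
      exact_mod_cast hcard
    have h6 : ((((Z p r).filter fun D => BadO r D).card : ℕ) : ℝ) * p <
        ((δ / 2) ^ r * (p : ℝ) ^ (r ^ 2 + r)) * p := by
      refine lt_of_le_of_lt h5 ?_
      calc (d : ℝ) * (p : ℝ) ^ (r ^ 2 + r) < ((δ / 2) ^ r * p) * (p : ℝ) ^ (r ^ 2 + r) :=
            mul_lt_mul_of_pos_right h1 (by positivity)
        _ = ((δ / 2) ^ r * (p : ℝ) ^ (r ^ 2 + r)) * p := by ring
    exact lt_of_mul_lt_mul_right h6 hpp.le
  have := most_of (p := p) (by omega) χ hχ (η := δ / 2) (δ := δ) (by positivity)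
    (by linarith) r 0 (Fin.elim0 : Fin 0 → ℕ) (fun i => i.elim0) (fun i => i.elim0)
    (fun i => i.elim0) hG
  rwa [Set.range_eq_empty] at this

/-- **Ordinary representations with scalar reduction.** For every `r` there is a nonzero integral
polynomial `P` such that `Criterion r P` holds; and for every `δ > 0` and all large `p` the statement
`AllReducible` holds for all sets of `r` primes `≡ 1 mod p` but a proportion of `δ`. -/
theorem result (r : ℕ) :
    (∃ P : MvPolynomial (Variables r) ℤ, P ≠ 0 ∧ Criterion r P) ∧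
    ∀ δ : ℝ, 0 < δ → ∃ p₀ : ℕ, ∀ (p : ℕ) [Fact p.Prime], p₀ ≤ p →
      Most p δ (AllReducible p) r ∅ := by
  refine ⟨?_, most r⟩
  obtain ⟨P, hP0, hP⟩ := exists_poly_gdO (Fin r)
  refine ⟨P, hP0, ?_⟩
  intro p _ hp2 S hS q hq hSq χ hχ hne
  obtain ⟨h1, h2⟩ := hP p hp2 (fun i j => lk χ (q i) (q j)) (fun i => lv p (q i))
    (fun i => lk χ p (q i)) hne
  exact reducible_of_gd hp2 S hS q hq hSq χ hχ h1 h2

end Pool.Agent.Results.MP_f68ac8_nt.MostSetsOrdinary
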