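import Pool.Agent.T9h32.GT.Fin

/-!
# Tame representations of rank two: most sets of `r` primes, for every `r`

Let `r ≥ 0` and `δ > 0`. For all large primes `p` the following holds. For all primes `q₁ ≡ 1 mod p`
but a proportion of at most `δ`, for all primes `q₂ ≡ 1 mod p` but a proportion of at most `δ`, and so
on until `q_r`, let `S` be a finite set which consists of some of the `q_i` and of primes
`≢ 0, 1 mod p`. Let `A` be any Noetherian local ring with finite residue field of characteristic `p`,
of any dimension, with its adic topology, and let `ρ : Gal(ℚbar/ℚ) → GL_2(A)` be continuous, unramified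
outside `S` (so also at `p`) and residually unipotent. Then

* `ρ` is trivial if `p` is not a zero divisor in `A` and if the inertia groups at the `q_i` act
  unipotently, or `A` is a domain and `GL_2(A)` has no elements of order `p`, or `A` is a discrete
  valuation ring in which `p` has a valuation `e` such that `p - 1` does not divide `2 e` (for example
  the ring of integers of an extension of `ℚ_p` of degree less than `(p - 1) / 2`);
* `ρ` has finite image modulo the nilradical of `A` if `p` is nilpotent in `A`, for example for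
  `A = 𝔽_q[[X₁, …, X_d]]`.

More precisely, for every `r` there is a nonzero integral polynomial `P` in the linking numbers
`λ i j`, `i ≠ j`, and the classes `u i` of the prime-to-`p` parts of `q i - 1`, which does not depend
on `p`, such that `P(λ, u) ≠ 0` in `ℤ/p` implies the statement for `q 0, …, q (r - 1)` and all odd `p`.
(For `r ≥ 4` the Galois group of the maximal `p`-extension of `ℚ` unramified outside `S` is infinite,
if all `q_i` are in `S`.)

Proof. By the criteria of the starting files (`NoetherianCoefficients`, `RankTwoWeightZero`) it is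
enough to show that nilpotent two by two matrices `M i` over an algebraically closed field of
characteristic `p` with `[∑ λ i j M j, M i] = s i u i M i`, `s i ∈ {0, 1}`, are proportional. Such an
`M i` is the square of a vector `w i`, and the relations become
`∑ λ i j ω(w j, w i) w j = ε s i u i w i`, with the determinant `ω`. Suppose that the `λ i j` and the
`u i` are algebraically independent over `ℤ` (in any field), that all `w i` are nonzero and that `w a`,
`w b` are independent; after a change of coordinates they are the standard basis. If the `w i` are on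
at least three lines, then two of the `λ i j` for each `i` can be computed from the other ones, the
`u i`, `ε` and the `2 (r - 2)` coordinates of the other `w i`: all `r ^ 2` parameters are in a field
generated by `r ^ 2 - 3` elements. If they are on two lines, then one of the `λ i j` for each `i` can be
computed from the other ones, and there are only `r - 2` coordinates: this gives `r ^ 2 - 2` elements.
Both are contradictions. So the ideal of the relations over the ring of polynomials in the `λ i j` and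
`u i` contains a nonzero polynomial in these alone, which vanishes at all specialisations which have
solutions. Finally, the linking numbers of a new prime with the given ones are equidistributed up to
scaling (`Pool.Agent.Q202.QT.densN` of helper202, Chebotarev), and by Schwartz and Zippel a
proportion of `O(1/p)` of the systems is bad. The nested counting is that of `FourPrimes`.
-/

set_option autoImplicit false

open NumberField IsLocalRing

namespace Pool.Agent.Results.MP_f68ac8_nt.MostSetsRankTwo

open Finset Filter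
open Pool.Agent.Q202.RT Pool.Agent.Q202.QT
open Pool.Agent.T9h32.GT (BadR badR_scInv badR_card exists_poly_gd Gd ul noTuple_of_gd noPair_of_gd)
open Pool.Agent.W569.TG (lk)

/-- the absolute Galois group of `ℚ`, with the Krull topology -/
abbrev AbsGal : Type := Gal(AlgebraicClosure ℚ/ℚ)

/-- `τ` lies in the inertia group at the ideal `P` of the ring of all algebraic integers. -/
def InInertia (P : Ideal (𝓞 (AlgebraicClosure ℚ))) (τ : AbsGal) : Prop :=
  ∀ x : 𝓞 (AlgebraicClosure ℚ), τ • x - x ∈ P

/-- `ρ` is trivial on the inertia groups at all maximal ideals of the ring of all algebraic integers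
which contain no `l ∈ S`. -/
def UnramifiedOutside {A : Type} [CommRing A] (S : Finset ℕ) (ρ : AbsGal →* GL (Fin 2) A) : Prop :=
  ∀ P : Ideal (𝓞 (AlgebraicClosure ℚ)), P.IsMaximal →
    (∀ l ∈ S, (l : 𝓞 (AlgebraicClosure ℚ)) ∉ P) → ∀ τ, InInertia P τ → ρ τ = 1

/-- Every `ρ g` is unipotent modulo the maximal ideal: some power of `ρ g - 1` has all entries in
the maximal ideal. -/
def ResiduallyUnipotent {A : Type} [CommRing A] [IsLocalRing A] (ρ : AbsGal →* GL (Fin 2) A) : Prop :=
  ∀ g, ∃ M : ℕ, ∀ i j, (((ρ g : Matrix (Fin 2) (Fin 2) A) - 1) ^ M) i j ∈ maximalIdeal A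

/-- The inertia groups at the primes above the `l ∈ S` with `l ≡ 1 mod p` act unipotently. -/
def UnipotentInertia {A : Type} [CommRing A] (p : ℕ) (S : Finset ℕ) (ρ : AbsGal →* GL (Fin 2) A) :
    Prop :=
  ∀ l ∈ S, p ∣ l - 1 → ∀ P : Ideal (𝓞 (AlgebraicClosure ℚ)), P.IsMaximal →
    (l : 𝓞 (AlgebraicClosure ℚ)) ∈ P → ∀ τ, InInertia P τ →
      ((ρ τ : Matrix (Fin 2) (Fin 2) A) - 1) ^ 2 = 0

/-- `A` is a domain and `GL_2(A)` has no elements of order `p`. -/
def NoTorsion (p : ℕ) (A : Type) [CommRing A] : Prop :=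
  IsDomain A ∧ ∀ M : Matrix (Fin 2) (Fin 2) A, M ^ p = 1 → M = 1

/-- `A` is a discrete valuation ring, and `p - 1` does not divide twice the valuation of `p`. -/
def SmallRamification (p : ℕ) (A : Type) [CommRing A] [IsLocalRing A] : Prop :=
  ∃ _ : IsDomain A, IsDiscreteValuationRing A ∧ ∃ e : ℕ, (p : A) ∈ maximalIdeal A ^ e ∧
    (p : A) ∉ maximalIdeal A ^ (e + 1) ∧ ¬ (p - 1) ∣ 2 * e

/-- `ρ` has finite image modulo the nilradical of `A`, and finite image if `A` is reduced. -/
def FiniteModNilradical {A : Type} [CommRing A] (ρ : AbsGal →* GL (Fin 2) A) : Prop :=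
  (Set.range fun g => Matrix.GeneralLinearGroup.map (Ideal.Quotient.mk (nilradical A))
    (ρ g)).Finite ∧ (IsReduced A → (Set.range ρ).Finite)

/-- `RankTwoTame p S`: let `A` be a Noetherian local ring with finite residue field of characteristic
`p`, with its adic topology, and `ρ` a continuous representation of the absolute Galois group of `ℚ` in
`GL_2(A)`, unramified outside `S` and residually unipotent. If `p` is nilpotent in `A`, then `ρ` has
finite image modulo the nilradical. If `p` is not a zero divisor in `A`, and the inertia groups at the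
`l ∈ S` with `l ≡ 1 mod p` act unipotently, or `A` is a domain such that `GL_2(A)` has no elements of
order `p`, or `A` is a discrete valuation ring in which `p - 1` does not divide twice the valuation of
`p`, then `ρ` is trivial. -/
def RankTwoTame (p : ℕ) (S : Finset ℕ) : Prop :=
  ∀ (A : Type) [CommRing A] [IsLocalRing A] [IsNoetherianRing A] [TopologicalSpace A],
    IsAdic (maximalIdeal A) → Finite (ResidueField A) → (p : A) ∈ maximalIdeal A →
    ∀ ρ : AbsGal →* GL (Fin 2) A, Continuous ρ → UnramifiedOutside S ρ → ResiduallyUnipotent ρ →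
      (IsNilpotent (p : A) → FiniteModNilradical ρ) ∧
      ((∀ a : A, (p : A) * a = 0 → a = 0) →
        UnipotentInertia p S ρ ∨ NoTorsion p A ∨ SmallRamification p A → ∀ g, ρ g = 1)

/-- The linking number `λ l j` of the distinct primes `l` and `j`: the value of the homomorphism
`χ j : (ℤ/j)ˣ → ℤ/p` at the class of `l` (and `0` if `l` and `j` are not coprime). -/
noncomputable def linking {p : ℕ} (χ : ∀ j : ℕ, (ZMod j)ˣ →* Multiplicative (ZMod p))
    (l j : ℕ) : ZMod p :=
  open Classical in if h : Nat.Coprime l j then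
    Multiplicative.toAdd (χ j (ZMod.unitOfCoprime l h)) else 0

/-- The variables of the polynomial: `λ i j` for `i ≠ j`, and `u i`. -/
abbrev Variables (r : ℕ) : Type := {x : Fin r × Fin r // x.1 ≠ x.2} ⊕ Fin r

/-- The linking numbers `λ i j` of the numbers `q i`, and the classes `u i` modulo `p` of the quotient
of `q i - 1` by the largest power of `p` which divides it. -/
noncomputable def numbers {p r : ℕ} (χ : ∀ j : ℕ, (ZMod j)ˣ →* Multiplicative (ZMod p))
    (q : Fin r → ℕ) : Variables r → ZMod p :=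
  Sum.elim (fun x => linking χ (q x.1.1) (q x.1.2))
    fun i => (((q i - 1) / p ^ padicValNat p (q i - 1) : ℕ) : ZMod p)

/-- `Criterion r P`: let `p` be an odd prime and `S` a finite set of prime numbers `l ≠ p` whose
members congruent to `1` modulo `p` are among the `r` different numbers `q 0, …, q (r - 1)`. If the
value of `P` at the linking numbers and at the prime-to-`p` parts of the `q i - 1` is not zero in
`ℤ/p`, for some nontrivial homomorphisms `χ l`, then `RankTwoTame p S` holds. -/
def Criterion (r : ℕ) (P : MvPolynomial (Variables r) ℤ) : Prop :=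
  ∀ (p : ℕ) [Fact p.Prime], p ≠ 2 → ∀ S : Finset ℕ, (∀ l ∈ S, l.Prime ∧ l ≠ p) →
    ∀ q : Fin r → ℕ, Function.Injective q → (∀ l ∈ S, p ∣ l - 1 → ∃ i, l = q i) →
    ∀ χ : ∀ j : ℕ, (ZMod j)ˣ →* Multiplicative (ZMod p), (∀ l ∈ S, p ∣ l - 1 → ∃ x, χ l x ≠ 1) →
    MvPolynomial.aeval (numbers χ q) P ≠ 0 → RankTwoTame p S

/-- `TameTrivial p T`: `RankTwoTame p S` holds for all finite sets `S` of prime numbers `l ≠ p` whose
members congruent to `1` modulo `p` are in `T`. -/
def TameTrivial (p : ℕ) (T : Set ℕ) : Prop :=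
  ∀ S : Finset ℕ, (∀ l ∈ S, l.Prime ∧ l ≠ p) → (∀ l ∈ S, p ∣ l - 1 → l ∈ T) → RankTwoTame p S

open Classical in
/-- The primes `q ≤ x` with `p ∣ q - 1`. -/
noncomputable def Pr (p x : ℕ) : Finset ℕ := (range (x + 1)).filter fun q => q.Prime ∧ p ∣ q - 1

open Classical in
/-- `Most p δ R m T`: for all primes `q₁ ≡ 1 mod p`, `q₁ ∉ T`, but a proportion of at most `δ`, for all
primes `q₂ ≡ 1 mod p`, `q₂ ∉ T ∪ {q₁}`, but a proportion of at most `δ`, …, for all primes
`q_m ≡ 1 mod p`, `q_m ∉ T ∪ {q₁, …, q_{m-1}}`, but a proportion of at most `δ`, the set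
`T ∪ {q₁, …, q_m}` has the property `R`. -/
def Most (p : ℕ) (δ : ℝ) (R : Set ℕ → Prop) : ℕ → Set ℕ → Prop
  | 0, T => R T
  | m + 1, T => ∀ ε : ℝ, 0 < ε → ∀ᶠ x : ℕ in atTop, (1 - δ - ε) * ((Pr p x).card : ℝ) ≤
      (((Pr p x).filter fun q => q ∉ T ∧ Most p δ R m (insert q T)).card : ℝ)

theorem Pr_eq (p x : ℕ) [Fact p.Prime] : Pr p x = P1 p x := by
  ext l
  rw [mem_P1, Pr, mem_filter, mem_range]
  constructor
  · rintro ⟨h1, h2, h3⟩
    exact ⟨by omega, h2, h3⟩
  · rintro ⟨h1, h2, h3⟩
    exact ⟨by omega, h2, h3⟩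

section
variable {p : ℕ} [Fact p.Prime]

theorem charP_of {A : Type} [CommRing A] [IsLocalRing A] (hpA : (p : A) ∈ maximalIdeal A) :
    CharP (ResidueField A) p := by
  have h1 : (p : ResidueField A) = 0 := by
    rw [← map_natCast (residue A), residue_eq_zero_iff]
    exact hpA
  rw [← CharP.ringChar_of_prime_eq_zero (R := ResidueField A) Fact.out h1]
  exact ringChar.charP _

/-- a local domain of residue characteristic `p` in which `p` is not zero has characteristic zero -/
theorem charZero_of {A : Type} [CommRing A] [IsLocalRing A] (hdom : IsDomain A)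
    (hpA : (p : A) ∈ maximalIdeal A) (hp0 : (p : A) ≠ 0) : CharZero A := by
  have hp : p.Prime := Fact.out
  have := charP_of hpA
  refine charZero_of_inj_zero fun n hn => ?_
  by_contra hn0
  obtain ⟨k, m, hm, hk⟩ := Nat.exists_eq_pow_mul_and_not_dvd hn0 p hp.ne_one
  rw [hk, Nat.cast_mul, Nat.cast_pow, mul_eq_zero] at hn
  rcases hn with h | h
  · exact pow_ne_zero k hp0 h
  · have h1 : residue A (m : A) = 0 := by rw [h, map_zero]
    rw [map_natCast] at h1
    exact hm ((CharP.cast_eq_zero_iff (ResidueField A) p m).1 h1)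

theorem tame_of_gd (hp2 : p ≠ 2) (S : Finset ℕ) (hS : ∀ l ∈ S, l.Prime ∧ l ≠ p)
    {r : ℕ} (q : Fin r → ℕ) (hq : Function.Injective q) (hSq : ∀ l ∈ S, p ∣ l - 1 → ∃ i, l = q i)
    (χ : ∀ j : ℕ, (ZMod j)ˣ →* Multiplicative (ZMod p)) (hχ : ∀ l ∈ S, p ∣ l - 1 → ∃ x, χ l x ≠ 1)
    (hG : Gd (fun i j => lk χ (q i) (q j)) (fun i => ul p (q i))) : RankTwoTame p S := by
  classical
  have hp : p.Prime := Fact.out
  have hmem : ∀ l ∈ Pool.Agent.Results.MP_924d78_nt.NoetherianCoefficients.Tame p S,
      l ∈ S ∧ p ∣ l - 1 := fun l hl => Finset.mem_filter.1 hl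
  have hrange : ∀ l ∈ Pool.Agent.Results.MP_924d78_nt.NoetherianCoefficients.Tame p S,
      l ∈ Set.range q := fun l hl => by
    obtain ⟨i, hi⟩ := hSq l (hmem l hl).1 (hmem l hl).2
    exact ⟨i, hi.symm⟩
  intro A _ _ _ _ hA hfin hpA ρ hρ hur hres
  have hcR : CharP (ResidueField A) p := charP_of hpA
  have hNT : ∀ (K : Type) [Field K] [CharP K p] (s : ℕ),
      Pool.Agent.Results.MP_924d78_nt.NoetherianCoefficients.NoTuple K p s S χ := fun K _ _ s =>
    noTuple_of_gd hq hrange (fun l hl => (hS l (hmem l hl).1).1) hG s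
  have hNP : ∀ (K : Type) [Field K] [CharP K p],
      Pool.Agent.Results.MP_924d78_nt.NoetherianCoefficients.NoPair K p S χ := fun K _ _ =>
    noPair_of_gd hq hrange hG
  have hchar : ∀ (K : Type) [Field K] [Algebra (ResidueField A) K], CharP K p := fun K _ _ =>
    charP_of_injective_algebraMap (algebraMap (ResidueField A) K).injective p
  have hR1 : Pool.Agent.Results.MP_924d78_nt.NoetherianCoefficients.Residual A
      (fun K _ => Pool.Agent.Results.MP_924d78_nt.NoetherianCoefficients.NoPair K p S χ ∧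
        Pool.Agent.Results.MP_924d78_nt.NoetherianCoefficients.NoTuple K p 0 S χ) := by
    intro K _ _ _ _
    have := hchar K
    exact ⟨hNP K, hNT K 0⟩
  have hR2 : Pool.Agent.Results.MP_924d78_nt.NoetherianCoefficients.Residual A
      (fun K _ => Pool.Agent.Results.MP_924d78_nt.NoetherianCoefficients.NoPair K p S χ ∧
        ∀ r : ℕ, Pool.Agent.Results.MP_924d78_nt.NoetherianCoefficients.NoTuple K p r S χ) := by
    intro K _ _ _ _
    have := hchar K
    exact ⟨hNP K, hNT K⟩
  have main := Pool.Agent.Results.MP_924d78_nt.NoetherianCoefficients.result p hp2 S hS A hA hfin hpA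
    ρ hρ (fun P hP hSP τ hτ => hur P hP hSP τ hτ) hres χ
    (fun l hl => hχ l (hmem l hl).1 (hmem l hl).2)
  refine ⟨fun hnil => main.1 (Or.inl hnil) (Or.inr (Or.inr hR1)), fun hreg hcase => ?_⟩
  rcases hcase with h | h | ⟨hdom, hdvr, e, he1, he2, he3⟩
  · refine main.2.2 hreg (Or.inr hR2) (Or.inl fun l hl P hP hlP τ hτ => ?_)
    exact h l (hmem l hl).1 (hmem l hl).2 P hP hlP τ hτ
  · exact main.2.2 hreg (Or.inr hR2) (Or.inr h)
  · have hp0 : (p : A) ≠ 0 := fun h => he2 (h ▸ Ideal.zero_mem _)
    have hcz : CharZero A := charZero_of hdom hpA hp0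
    have he0 : 1 ≤ e := by
      rcases Nat.eq_zero_or_pos e with h | h
      · exact absurd (by rw [h, mul_zero]; exact dvd_zero _) he3
      · exact h
    have key := Pool.Agent.Results.MP_f68ac8_nt.RankTwoWeightZero.result p hp2 S
      (fun l hl => (hS l hl).1) A hA hfin e he0 he1 he2 ρ hρ
      (fun P hP hSP τ hτ => hur P hP hSP τ hτ) (fun h => absurd rfl (hS p h).2) hres
    refine key.2.2 (fun h => (hS p h).2 rfl) (Or.inr ⟨χ, fun l hl => ?_, ?_, fun s _ => ?_⟩)
      (Or.inl he3)
    · exact hχ l (hmem l hl).1 (hmem l hl).2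
    · exact hNP (ResidueField A)
    · exact hNT (ResidueField A) s

theorem good_of (hp2 : p ≠ 2) (χ : ∀ j : ℕ, (ZMod j)ˣ →* Multiplicative (ZMod p))
    (hχ : Kr χ) {r : ℕ} (l : Fin r → ℕ) (hl1 : ∀ i, p ∣ l i - 1) (hli : Function.Injective l)
    (hG : ¬ BadR r (N829.QD.dat χ l)) : TameTrivial p (Set.range l) := by
  have hp : p.Prime := Fact.out
  unfold BadR at hG
  push Not at hG
  obtain ⟨g1, g2⟩ := hG
  have hul : ∀ i, ul p (l i) = lv p (l i) := by
    intro i
    have h1 : lv p (l i) ≠ 0 := g1 i
    have h2 : padicValNat p (l i - 1) = 1 := by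
      have h0 : l i - 1 ≠ 0 := by
        intro h0
        apply h1
        unfold lv
        rw [h0, Nat.zero_div, Nat.cast_zero]
      have h3 : 1 ≤ padicValNat p (l i - 1) :=
        (padicValNat_dvd_iff_le h0).1 (by rw [pow_one]; exact hl1 i)
      have h4 : ¬ 2 ≤ padicValNat p (l i - 1) := by
        intro h4
        obtain ⟨c, hc⟩ := (padicValNat_dvd_iff_le h0).2 h4
        apply h1
        unfold lv
        rw [ZMod.natCast_eq_zero_iff]
        refine ⟨c, ?_⟩
        rw [hc, pow_two, mul_assoc, Nat.mul_div_cancel_left _ hp.pos]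
      omega
    unfold ul lv
    rw [h2, pow_one]
  intro S hS hT
  refine tame_of_gd hp2 S hS l hli (fun q hq h => ?_) χ (fun q hq hpq => (hχ q (hS q hq).1 hpq).1) ?_
  · obtain ⟨i, hi⟩ := hT q hq h
    exact ⟨i, hi.symm⟩
  · have e : (fun i => ul p (l i)) = fun i => lv p (l i) := funext hul
    rw [e]
    exact g2

theorem most_of (hp2 : p ≠ 2) (χ : ∀ j : ℕ, (ZMod j)ˣ →* Multiplicative (ZMod p))
    (hχ : Kr χ) {η δ : ℝ} (hη : 0 < η) (hδ : η + 1 / p ≤ δ) (m : ℕ) : ∀ (k : ℕ) (l : Fin k → ℕ),
      (∀ i, (l i).Prime) → (∀ i, p ∣ l i - 1) → Function.Injective l →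
      N829.QD.GdN BadR η m k (N829.QD.dat χ l) → Most p δ (TameTrivial p) m (Set.range l) := by
  classical
  have hp : p.Prime := Fact.out
  have hp0 : (0 : ℝ) < p := by exact_mod_cast hp.pos
  have hp1 : (1 : ℝ) ≤ p := by exact_mod_cast hp.one_lt.le
  induction m with
  | zero =>
    intro k l hl hpl hli hG
    exact good_of hp2 χ hχ l hpl hli (N829.QD.gd_zero hG)
  | succ m ih =>
    intro k l hl hpl hli hG ε hε
    have hst := N829.QD.gd_step hη hG
    obtain ⟨Good, hGood⟩ : ∃ G : (Fin (k + 1) → ZMod p) → (Fin (k + 1) → ZMod p) → Prop,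
        G = fun w s => w ≠ 0 ∧ N829.QD.GdN BadR η m (k + 1) (ext (N829.QD.dat χ l) w s) :=
      ⟨_, rfl⟩
    have hst' : (1 - η) * ((p : ℝ) ^ (k + 1) * (p : ℝ) ^ (k + 1)) - (p : ℝ) ^ (k + 1) ≤
        ((∑ w : Fin (k + 1) → ZMod p,
          ((univ : Finset (Fin (k + 1) → ZMod p)).filter fun s => Good w s).card : ℕ) : ℝ) := by
      subst hGood
      convert hst
    have hd := densN (p := p) hp2 χ hχ l hl hpl hli Good
      (fun w s h => by rw [hGood] at h; exact h.1) (fun w s c hc h => by
        rw [hGood] at h ⊢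
        refine ⟨fun h0 => h.1 (by
          funext j
          exact (mul_eq_zero.1 (congrFun h0 j)).resolve_left hc), ?_⟩
        unfold N829.QD.GdN
        rw [N829.QD.Nb_wsc badR_scInv m k hc]
        exact h.2) (1 - δ) (by
        have : (0 : ℝ) < 1 / p := by positivity
        linarith) (by
        rw [le_div_iff₀ (by
          have : 0 < Fintype.card (Fin (k + 1) → ZMod p) := Fintype.card_pos
          positivity), Fintype.card_fun, ZMod.card, Fintype.card_fin]
        refine le_trans ?_ (hst'.trans (le_of_eq (by congr!)))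
        push_cast
        have h1 : (0 : ℝ) < (p : ℝ) ^ (k + 1) := by positivity
        have h2 : (p : ℝ) ^ (k + 1) * 1 ≤ (p : ℝ) ^ (k + 1) * ((1 / p) * (p : ℝ) ^ (k + 1)) := by
          refine mul_le_mul_of_nonneg_left ?_ h1.le
          rw [pow_succ, one_div, mul_comm ((p : ℝ) ^ k), inv_mul_cancel_left₀ hp0.ne']
          exact one_le_pow₀ hp1
        have h3 : (1 - δ) * ((p : ℝ) ^ (k + 1) * (p : ℝ) ^ (k + 1)) ≤
            (1 - η - 1 / p) * ((p : ℝ) ^ (k + 1) * (p : ℝ) ^ (k + 1)) :=
          mul_le_mul_of_nonneg_right (by linarith) (by positivity)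
        linarith) ε hε
    filter_upwards [hd] with x hx
    rw [Pr_eq]
    refine le_trans hx (Nat.cast_le.2 (card_le_card ?_))
    intro q hq
    obtain ⟨h1, h2, h34⟩ := (@Finset.mem_filter _ _ _ _ _).1 hq
    rw [hGood] at h34
    obtain ⟨h3, h4⟩ := h34
    obtain ⟨-, hqp, hpq⟩ := mem_P1.1 h1
    simp only [Finset.mem_filter]
    refine ⟨h1, fun ⟨i, hi⟩ => h2 i hi.symm, ?_⟩
    rw [← Fin.range_cons]
    refine ih (k + 1) (Fin.cons q l) ?_ ?_ ?_ ?_
    · intro i
      refine Fin.cases ?_ (fun j => ?_) i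
      · exact hqp
      · exact hl j
    · intro i
      refine Fin.cases ?_ (fun j => ?_) i
      · exact hpq
      · exact hpl j
    · rw [Fin.cons_injective_iff]
      exact ⟨fun ⟨i, hi⟩ => h2 i hi.symm, hli⟩
    · rw [N829.QD.dat_cons χ l hqp]
      exact h4

end

theorem most (r : ℕ) (δ : ℝ) (hδ : 0 < δ) :
    ∃ p₀ : ℕ, ∀ (p : ℕ) [Fact p.Prime], p₀ ≤ p → Most p δ (TameTrivial p) r ∅ := by
  classical
  obtain ⟨d, c, hc, hdc⟩ := badR_card r
  obtain ⟨B, hB⟩ := exists_nat_gt ((d : ℝ) / (δ / 2) ^ r + 2 / δ)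
  refine ⟨3 + c + B, ?_⟩
  intro p _ hp0
  have hp : p.Prime := Fact.out
  have hpp : (0 : ℝ) < p := by exact_mod_cast hp.pos
  have hBp : (B : ℝ) ≤ p := by
    have : B ≤ p := by omega
    exact_mod_cast this
  have hpc : ¬ p ∣ c := fun h => by
    have := Nat.le_of_dvd (Nat.pos_of_ne_zero hc) h
    omega
  have hcard := hdc p (by omega) hpc
  obtain ⟨χ, hχ, -⟩ := extend (p := p) (fun _ => 1) ∅ (fun j hj => absurd hj (Set.notMem_empty j))
  have hd2 : (0 : ℝ) < (δ / 2) ^ r := by positivity
  have h1 : (d : ℝ) < (δ / 2) ^ r * p := by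
    have h2 : (d : ℝ) / (δ / 2) ^ r < p := by
      have : (0 : ℝ) < 2 / δ := by positivity
      linarith
    rwa [div_lt_iff₀ hd2, mul_comm] at h2
  have h3 : 1 / (p : ℝ) ≤ δ / 2 := by
    have h4 : 2 / δ < p := by
      have : (0 : ℝ) ≤ (d : ℝ) / (δ / 2) ^ r := by positivity
      linarith
    rw [div_lt_iff₀ hδ] at h4
    rw [div_le_div_iff₀ hpp (by norm_num)]
    linarith
  have hG : N829.QD.GdN (p := p) BadR (δ / 2) r 0 (N829.QD.dat χ (Fin.elim0 : Fin 0 → ℕ)) := by
    refine N829.QD.gd_init ?_ _
    have h5 : ((((Z p r).filter fun D => BadR r D).card : ℕ) : ℝ) * p ≤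
        d * (p : ℝ) ^ (r ^ 2 + r) := by
      exact_mod_cast hcard
    have h6 : ((((Z p r).filter fun D => BadR r D).card : ℕ) : ℝ) * p <
        ((δ / 2) ^ r * (p : ℝ) ^ (r ^ 2 + r)) * p := by
      refine lt_of_le_of_lt h5 ?_
      calc (d : ℝ) * (p : ℝ) ^ (r ^ 2 + r) < ((δ / 2) ^ r * p) * (p : ℝ) ^ (r ^ 2 + r) :=
            mul_lt_mul_of_pos_right h1 (by positivity)
        _ = ((δ / 2) ^ r * (p : ℝ) ^ (r ^ 2 + r)) * p := by ring
    exact lt_of_mul_lt_mul_right h6 hpp.le
  have := most_of (p := p) (by omega) χ hχ (η := δ / 2) (δ := δ) (by positivity)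
    (by linarith) r 0 (Fin.elim0 : Fin 0 → ℕ) (fun i => i.elim0) (fun i => i.elim0)
    (fun i => i.elim0) hG
  rwa [Set.range_eq_empty] at this

/-- **Tame representations of rank two.** For every `r` there is a nonzero integral polynomial `P` such
that `Criterion r P` holds; and for every `δ > 0` and all large `p` the statement `TameTrivial` holds
for all sets of `r` primes `≡ 1 mod p` but a proportion of `δ`. -/
theorem result (r : ℕ) :
    (∃ P : MvPolynomial (Variables r) ℤ, P ≠ 0 ∧ Criterion r P) ∧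
    ∀ δ : ℝ, 0 < δ → ∃ p₀ : ℕ, ∀ (p : ℕ) [Fact p.Prime], p₀ ≤ p →
      Most p δ (TameTrivial p) r ∅ := by
  refine ⟨?_, most r⟩
  obtain ⟨P, hP0, hP⟩ := exists_poly_gd (Fin r)
  refine ⟨P, hP0, ?_⟩
  intro p _ hp2 S hS q hq hSq χ hχ hne
  refine tame_of_gd hp2 S hS q hq hSq χ hχ (hP p hp2 _ _ ?_)
  exact hne

end Pool.Agent.Results.MP_f68ac8_nt.MostSetsRankTwo
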