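import Pool.Agent.T9h32.GA.Fin

/-!
# Symplectic representations of any dimension with transvection inertia: most sets of `r` primes

Let `r ≥ 0` and `δ > 0`. For all large primes `p` the following holds. For all primes `q₁ ≡ 1 mod p`
but a proportion of at most `δ`, for all primes `q₂ ≡ 1 mod p` but a proportion of at most `δ`, and so
on until `q_r`, let `S` be a finite set which consists of some of the `q_i` and of primes
`≢ 0, 1 mod p`. Let `F` be any complete field with a nonarchimedean absolute value `|p| < 1` (for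
example a finite extension of `ℚ_p`, or `ℂ_p`, or `𝔽_q((t))`), let `n` be any natural number, and let
`ρ : Gal(ℚbar/ℚ) → GL_n(F)` be a continuous representation with values in the similitudes of a
symplectic form, whose image is a pro-`p` group, which is unramified outside `S` (so also at `p`),
and such that the inertia groups at the `q_i` in `S` act by transvections `x ↦ x + w(x) v`. Then the
image of `ρ` is finite, and `ρ` is trivial if `F` has characteristic zero.

More precisely, for every `r` there is a nonzero integral polynomial `P` in the linking numbers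
`λ i j`, `i ≠ j`, and the classes `u i` of the prime-to-`p` parts of `q i - 1`, which depends neither
on `p` nor on `n` or `F`, such that `P(λ, u) ≠ 0` in `ℤ/p` implies the statement for
`q 0, …, q (r - 1)` and all odd `p`. (For `r ≥ 4` the Galois group of the maximal `p`-extension of `ℚ`
unramified outside `S` is infinite, if all `q_i` are in `S`.) So there are no such representations
with infinite image, as the conjecture of Fontaine and Mazur predicts. (Transvections are the simplest
unipotent elements, as in the Picard-Lefschetz formula in odd dimensions. For `n = 2` the conditions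
mean that the inertia groups at the `q_i` act unipotently.)

Proof. After a quadratic extension of `F` the selected inertia generators are
`ρ(τ_i) x = x + ω(x, v_i) v_i`. Let `a_ij = ω(v_i, v_j)`, let `a` be one of the `a_ij` with the largest
absolute value, and suppose `a ≠ 0`. Then `|a| < 1` since the image is pro-`p`. The image of `ρ` is
topologically generated by the `ρ(τ_i)` (Minkowski, Burnside), so that `ρ(g) v_j - v_j` is in `a L`,
where `L` is the lattice generated by the `v_i` (up to topology), and `ω(v_i, ρ(g) v_j - v_j) / a ^ 2`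
is integral, and additive in `g` modulo the maximal ideal. So its values at Frobenius elements are
given by the linking numbers. The vector `v_i` is an eigenvector of the Frobenius element `σ_i`, with
an eigenvalue whose square is `q_i`. For the reduction `g` of the alternating matrix `(a_ij / a)`
this gives `∑ λ i j g_ij g_kj = ε s_i u_i g_ki` for all `i` and `k`, with `s_i ∈ {0, 1}` and some
`ε` (if `q_i - 1` is not divisible by `a`, the row `i` of `g` is zero).

Such a matrix is zero, if the `λ i j` and the `u i` are algebraically independent over `ℤ`, in any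
field. Otherwise we may assume `ε ∈ {0, 1}`. There is a nonempty set `I` such that the rows `g_i` for
`i ∈ I` are a basis of the row space, and then the principal minor of `g` for `I` is not zero. The
entries in the rows `I` generate all `g_ij`, and the numbers `λ i j` with `j ∈ I`, `g_ij ≠ 0` can be
computed from the other `λ i j`, the `u i` and `g`. There are as many of them as nonzero entries in the
rows `I`, and some pairs of these are equal up to sign. So the `r ^ 2` parameters are in a field
generated by `r ^ 2 - 1` elements, a contradiction. As in `MostSetsRankTwo` this gives the polynomial,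
by Schwartz and Zippel a proportion of `O(1/p)` of the systems is bad, and the linking numbers of a
new prime with the given ones are equidistributed up to scaling (`Pool.Agent.Q202.QT.densN` of
helper202, Chebotarev). The nested counting is that of `FourPrimes`.
-/

set_option autoImplicit false

open NumberField

namespace Pool.Agent.Results.MP_f68ac8_nt.TransvectionInertia

open Finset Filter Matrix
open Pool.Agent.Q202.RT Pool.Agent.Q202.QT
open Pool.Agent.T9h32.GT (ul)
open Pool.Agent.T9h32.GA (BadA badA_scInv badA_card exists_poly_gdA GdA over_F)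
open Pool.Agent.W569.TG (lk)

/-- the absolute Galois group of `ℚ`, with the Krull topology -/
abbrev AbsGal : Type := Gal(AlgebraicClosure ℚ/ℚ)

/-- `τ` lies in the inertia group at the ideal `P` of the ring of all algebraic integers. -/
def InInertia (P : Ideal (𝓞 (AlgebraicClosure ℚ))) (τ : AbsGal) : Prop :=
  ∀ x : 𝓞 (AlgebraicClosure ℚ), τ • x - x ∈ P

/-- `ρ` is trivial on the inertia groups at all maximal ideals of the ring of all algebraic integers
which contain no `l ∈ S`. -/
def UnramifiedOutside {F : Type} [Field F] {n : ℕ} (S : Finset ℕ) (ρ : AbsGal →* GL (Fin n) F) :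
    Prop :=
  ∀ P : Ideal (𝓞 (AlgebraicClosure ℚ)), P.IsMaximal →
    (∀ l ∈ S, (l : 𝓞 (AlgebraicClosure ℚ)) ∉ P) → ∀ τ, InInertia P τ → ρ τ = 1

/-- The image of `ρ` is a pro-`p` group: for every `g` the powers `ρ(g) ^ (p ^ k)` tend to `1`. -/
def ProPImage {F : Type} [NormedField F] {n : ℕ} (p : ℕ) (ρ : AbsGal →* GL (Fin n) F) : Prop :=
  ∀ g, Tendsto (fun k : ℕ => ρ g ^ p ^ k) atTop (nhds 1)

/-- `ρ` acts by similitudes of a nondegenerate form `x, y ↦ xᵀ J y` with `Jᵀ = -J`. -/
def PreservesSymplecticForm {F : Type} [Field F] {n : ℕ} (ρ : AbsGal →* GL (Fin n) F) : Prop :=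
  ∃ J : Matrix (Fin n) (Fin n) F, Jᵀ = -J ∧ IsUnit J.det ∧
    ∀ g, ∃ c : F, (ρ g : Matrix (Fin n) (Fin n) F)ᵀ * J * (ρ g : Matrix (Fin n) (Fin n) F) = c • J

/-- `M` is a transvection `x ↦ x + w(x) v`, `w(v) = 0` (or the identity). -/
def IsTransvection {F : Type} [Field F] {n : ℕ} (M : Matrix (Fin n) (Fin n) F) : Prop :=
  ∃ v w : Fin n → F, w ⬝ᵥ v = 0 ∧ M = 1 + vecMulVec v w

/-- The elements of the inertia groups at the primes above the `l ∈ S` with `l ≡ 1 mod p` act by
transvections. -/
def TransvectionInertia {F : Type} [Field F] {n : ℕ} (p : ℕ) (S : Finset ℕ)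
    (ρ : AbsGal →* GL (Fin n) F) : Prop :=
  ∀ l ∈ S, p ∣ l - 1 → ∀ P : Ideal (𝓞 (AlgebraicClosure ℚ)), P.IsMaximal →
    (l : 𝓞 (AlgebraicClosure ℚ)) ∈ P → ∀ τ, InInertia P τ →
      IsTransvection (ρ τ : Matrix (Fin n) (Fin n) F)

/-- `SymplecticTame p S`: let `F` be a complete nonarchimedean field in which `p` has absolute value
less than one, `n` a natural number, and `ρ` a continuous representation of the absolute Galois group
of `ℚ` in `GL_n(F)` by similitudes of a symplectic form, with pro-`p` image, unramified outside `S`,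
such that the inertia groups at the `l ∈ S` with `l ≡ 1 mod p` act by transvections. Then the image of
`ρ` is finite, and `ρ` is trivial if `p` is not zero in `F`. -/
def SymplecticTame (p : ℕ) (S : Finset ℕ) : Prop :=
  ∀ (F : Type) [NontriviallyNormedField F] [IsUltrametricDist F] [CompleteSpace F],
    ‖(p : F)‖ < 1 → ∀ (n : ℕ) (ρ : AbsGal →* GL (Fin n) F), Continuous ρ → UnramifiedOutside S ρ →
      ProPImage p ρ → PreservesSymplecticForm ρ → TransvectionInertia p S ρ →
      (Set.range ρ).Finite ∧ ((p : F) ≠ 0 → ∀ g, ρ g = 1)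

/-- The linking number `λ l j` of the distinct primes `l` and `j`: the value of the homomorphism
`χ j : (ℤ/j)ˣ → ℤ/p` at the class of `l` (and `0` if `l` and `j` are not coprime). -/
noncomputable def linking {p : ℕ} (χ : ∀ j : ℕ, (ZMod j)ˣ →* Multiplicative (ZMod p))
    (l j : ℕ) : ZMod p :=
  open Classical in if h : Nat.Coprime l j then
    Multiplicative.toAdd (χ j (ZMod.unitOfCoprime l h)) else 0

/-- The variables of the polynomial: `λ i j` for `i ≠ j`, and `u i`. -/
abbrev Variables (r : ℕ) : Type := {x : Fin r × Fin r // x.1 ≠ x.2} ⊕ Fin r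

/-- The linking numbers `λ i j` of the numbers `q i`, and the classes `u i` modulo `p` of the quotient
of `q i - 1` by the largest power of `p` which divides it. -/
noncomputable def numbers {p r : ℕ} (χ : ∀ j : ℕ, (ZMod j)ˣ →* Multiplicative (ZMod p))
    (q : Fin r → ℕ) : Variables r → ZMod p :=
  Sum.elim (fun x => linking χ (q x.1.1) (q x.1.2))
    fun i => (((q i - 1) / p ^ padicValNat p (q i - 1) : ℕ) : ZMod p)

/-- `Criterion r P`: let `p` be an odd prime and `S` a finite set of prime numbers `l ≠ p` whose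
members congruent to `1` modulo `p` are among the `r` different numbers `q 0, …, q (r - 1)`. If the
value of `P` at the linking numbers and at the prime-to-`p` parts of the `q i - 1` is not zero in
`ℤ/p`, for some nontrivial homomorphisms `χ l`, then `SymplecticTame p S` holds. -/
def Criterion (r : ℕ) (P : MvPolynomial (Variables r) ℤ) : Prop :=
  ∀ (p : ℕ) [Fact p.Prime], p ≠ 2 → ∀ S : Finset ℕ, (∀ l ∈ S, l.Prime ∧ l ≠ p) →
    ∀ q : Fin r → ℕ, Function.Injective q → (∀ l ∈ S, p ∣ l - 1 → ∃ i, l = q i) →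
    ∀ χ : ∀ j : ℕ, (ZMod j)ˣ →* Multiplicative (ZMod p), (∀ l ∈ S, p ∣ l - 1 → ∃ x, χ l x ≠ 1) →
    MvPolynomial.aeval (numbers χ q) P ≠ 0 → SymplecticTame p S

/-- `TameTrivial p T`: `SymplecticTame p S` holds for all finite sets `S` of prime numbers `l ≠ p`
whose members congruent to `1` modulo `p` are in `T`. -/
def TameTrivial (p : ℕ) (T : Set ℕ) : Prop :=
  ∀ S : Finset ℕ, (∀ l ∈ S, l.Prime ∧ l ≠ p) → (∀ l ∈ S, p ∣ l - 1 → l ∈ T) → SymplecticTame p S

open Classical in
/-- The primes `q ≤ x` with `p ∣ q - 1`. -/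
noncomputable def Pr (p x : ℕ) : Finset ℕ := (range (x + 1)).filter fun q => q.Prime ∧ p ∣ q - 1

open Classical in
/-- `Most p δ R m T`: for all primes `q₁ ≡ 1 mod p`, `q₁ ∉ T`, but a proportion of at most `δ`, for all
primes `q₂ ≡ 1 mod p`, `q₂ ∉ T ∪ {q₁}`, but a proportion of at most `δ`, …, for all primes
`q_m ≡ 1 mod p`, `q_m ∉ T ∪ {q₁, …, q_{m-1}}`, but a proportion of at most `δ`, the set
`T ∪ {q₁, …, q_m}` has the property `R`. -/
def Most (p : ℕ) (δ : ℝ) (R : Set ℕ → Prop) : ℕ → Set ℕ → Prop
  | 0, T => R T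
  | m + 1, T => ∀ ε : ℝ, 0 < ε → ∀ᶠ x : ℕ in atTop, (1 - δ - ε) * ((Pr p x).card : ℝ) ≤
      (((Pr p x).filter fun q => q ∉ T ∧ Most p δ R m (insert q T)).card : ℝ)

theorem Pr_eq (p x : ℕ) [Fact p.Prime] : Pr p x = P1 p x := by
  ext l
  rw [mem_P1, Pr, mem_filter, mem_range]
  constructor
  · rintro ⟨h1, h2, h3⟩
    exact ⟨by omega, h2, h3⟩
  · rintro ⟨h1, h2, h3⟩
    exact ⟨by omega, h2, h3⟩

section
variable {p : ℕ} [Fact p.Prime]

theorem tame_of_gd (hp2 : p ≠ 2) (S : Finset ℕ) (hS : ∀ l ∈ S, l.Prime ∧ l ≠ p)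
    {r : ℕ} (q : Fin r → ℕ) (hq : Function.Injective q) (hSq : ∀ l ∈ S, p ∣ l - 1 → ∃ i, l = q i)
    (χ : ∀ j : ℕ, (ZMod j)ˣ →* Multiplicative (ZMod p)) (hχ : ∀ l ∈ S, p ∣ l - 1 → ∃ x, χ l x ≠ 1)
    (hG : GdA (fun i j => lk χ (q i) (q j)) (fun i => ul p (q i))) : SymplecticTame p S := by
  obtain ⟨d⟩ := Pool.Agent.TH831.NA.exists_dt S hS χ hχ
  intro F _ _ _ hpF n ρ hρ hur hpp ⟨J, hJ, hu, hform⟩ htr
  refine over_F hp2 hpF hρ hpp hS ?_ d hJ hu hform (fun l hl hpl => ?_) hq hSq hG
  · rintro g ⟨P, hP, hSP, hτ⟩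
    exact hur P hP hSP g hτ
  · have hP := d.hP l (hS l hl).1
    exact htr l hl hpl (d.P l) hP.1 hP.2 (d.τ l) (d.hτ l hl hpl)

theorem good_of (hp2 : p ≠ 2) (χ : ∀ j : ℕ, (ZMod j)ˣ →* Multiplicative (ZMod p))
    (hχ : Kr χ) {r : ℕ} (l : Fin r → ℕ) (hl1 : ∀ i, p ∣ l i - 1) (hli : Function.Injective l)
    (hG : ¬ BadA r (N829.QD.dat χ l)) : TameTrivial p (Set.range l) := by
  have hp : p.Prime := Fact.out
  unfold BadA at hG
  push Not at hG
  obtain ⟨g1, g2⟩ := hG
  have hul : ∀ i, ul p (l i) = lv p (l i) := by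
    intro i
    have h1 : lv p (l i) ≠ 0 := g1 i
    have h2 : padicValNat p (l i - 1) = 1 := by
      have h0 : l i - 1 ≠ 0 := by
        intro h0
        apply h1
        unfold lv
        rw [h0, Nat.zero_div, Nat.cast_zero]
      have h3 : 1 ≤ padicValNat p (l i - 1) :=
        (padicValNat_dvd_iff_le h0).1 (by rw [pow_one]; exact hl1 i)
      have h4 : ¬ 2 ≤ padicValNat p (l i - 1) := by
        intro h4
        obtain ⟨c, hc⟩ := (padicValNat_dvd_iff_le h0).2 h4
        apply h1
        unfold lv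
        rw [ZMod.natCast_eq_zero_iff]
        refine ⟨c, ?_⟩
        rw [hc, pow_two, mul_assoc, Nat.mul_div_cancel_left _ hp.pos]
      omega
    unfold ul lv
    rw [h2, pow_one]
  intro S hS hT
  refine tame_of_gd hp2 S hS l hli (fun q hq h => ?_) χ (fun q hq hpq => (hχ q (hS q hq).1 hpq).1) ?_
  · obtain ⟨i, hi⟩ := hT q hq h
    exact ⟨i, hi.symm⟩
  · have e : (fun i => ul p (l i)) = fun i => lv p (l i) := funext hul
    rw [e]
    exact g2

theorem most_of (hp2 : p ≠ 2) (χ : ∀ j : ℕ, (ZMod j)ˣ →* Multiplicative (ZMod p))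
    (hχ : Kr χ) {η δ : ℝ} (hη : 0 < η) (hδ : η + 1 / p ≤ δ) (m : ℕ) : ∀ (k : ℕ) (l : Fin k → ℕ),
      (∀ i, (l i).Prime) → (∀ i, p ∣ l i - 1) → Function.Injective l →
      N829.QD.GdN BadA η m k (N829.QD.dat χ l) → Most p δ (TameTrivial p) m (Set.range l) := by
  classical
  have hp : p.Prime := Fact.out
  have hp0 : (0 : ℝ) < p := by exact_mod_cast hp.pos
  have hp1 : (1 : ℝ) ≤ p := by exact_mod_cast hp.one_lt.le
  induction m with
  | zero =>
    intro k l hl hpl hli hG
    exact good_of hp2 χ hχ l hpl hli (N829.QD.gd_zero hG)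
  | succ m ih =>
    intro k l hl hpl hli hG ε hε
    have hst := N829.QD.gd_step hη hG
    obtain ⟨Good, hGood⟩ : ∃ G : (Fin (k + 1) → ZMod p) → (Fin (k + 1) → ZMod p) → Prop,
        G = fun w s => w ≠ 0 ∧ N829.QD.GdN BadA η m (k + 1) (ext (N829.QD.dat χ l) w s) :=
      ⟨_, rfl⟩
    have hst' : (1 - η) * ((p : ℝ) ^ (k + 1) * (p : ℝ) ^ (k + 1)) - (p : ℝ) ^ (k + 1) ≤
        ((∑ w : Fin (k + 1) → ZMod p,
          ((univ : Finset (Fin (k + 1) → ZMod p)).filter fun s => Good w s).card : ℕ) : ℝ) := by
      subst hGood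
      convert hst
    have hd := densN (p := p) hp2 χ hχ l hl hpl hli Good
      (fun w s h => by rw [hGood] at h; exact h.1) (fun w s c hc h => by
        rw [hGood] at h ⊢
        refine ⟨fun h0 => h.1 (by
          funext j
          exact (mul_eq_zero.1 (congrFun h0 j)).resolve_left hc), ?_⟩
        unfold N829.QD.GdN
        rw [N829.QD.Nb_wsc badA_scInv m k hc]
        exact h.2) (1 - δ) (by
        have : (0 : ℝ) < 1 / p := by positivity
        linarith) (by
        rw [le_div_iff₀ (by
          have : 0 < Fintype.card (Fin (k + 1) → ZMod p) := Fintype.card_pos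
          positivity), Fintype.card_fun, ZMod.card, Fintype.card_fin]
        refine le_trans ?_ (hst'.trans (le_of_eq (by congr!)))
        push_cast
        have h1 : (0 : ℝ) < (p : ℝ) ^ (k + 1) := by positivity
        have h2 : (p : ℝ) ^ (k + 1) * 1 ≤ (p : ℝ) ^ (k + 1) * ((1 / p) * (p : ℝ) ^ (k + 1)) := by
          refine mul_le_mul_of_nonneg_left ?_ h1.le
          rw [pow_succ, one_div, mul_comm ((p : ℝ) ^ k), inv_mul_cancel_left₀ hp0.ne']
          exact one_le_pow₀ hp1
        have h3 : (1 - δ) * ((p : ℝ) ^ (k + 1) * (p : ℝ) ^ (k + 1)) ≤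
            (1 - η - 1 / p) * ((p : ℝ) ^ (k + 1) * (p : ℝ) ^ (k + 1)) :=
          mul_le_mul_of_nonneg_right (by linarith) (by positivity)
        linarith) ε hε
    filter_upwards [hd] with x hx
    rw [Pr_eq]
    refine le_trans hx (Nat.cast_le.2 (card_le_card ?_))
    intro q hq
    obtain ⟨h1, h2, h34⟩ := (@Finset.mem_filter _ _ _ _ _).1 hq
    rw [hGood] at h34
    obtain ⟨h3, h4⟩ := h34
    obtain ⟨-, hqp, hpq⟩ := mem_P1.1 h1
    simp only [Finset.mem_filter]
    refine ⟨h1, fun ⟨i, hi⟩ => h2 i hi.symm, ?_⟩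
    rw [← Fin.range_cons]
    refine ih (k + 1) (Fin.cons q l) ?_ ?_ ?_ ?_
    · intro i
      refine Fin.cases ?_ (fun j => ?_) i
      · exact hqp
      · exact hl j
    · intro i
      refine Fin.cases ?_ (fun j => ?_) i
      · exact hpq
      · exact hpl j
    · rw [Fin.cons_injective_iff]
      exact ⟨fun ⟨i, hi⟩ => h2 i hi.symm, hli⟩
    · rw [N829.QD.dat_cons χ l hqp]
      exact h4

end

theorem most (r : ℕ) (δ : ℝ) (hδ : 0 < δ) :
    ∃ p₀ : ℕ, ∀ (p : ℕ) [Fact p.Prime], p₀ ≤ p → Most p δ (TameTrivial p) r ∅ := by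
  classical
  obtain ⟨d, c, hc, hdc⟩ := badA_card r
  obtain ⟨B, hB⟩ := exists_nat_gt ((d : ℝ) / (δ / 2) ^ r + 2 / δ)
  refine ⟨3 + c + B, ?_⟩
  intro p _ hp0
  have hp : p.Prime := Fact.out
  have hpp : (0 : ℝ) < p := by exact_mod_cast hp.pos
  have hBp : (B : ℝ) ≤ p := by
    have : B ≤ p := by omega
    exact_mod_cast this
  have hpc : ¬ p ∣ c := fun h => by
    have := Nat.le_of_dvd (Nat.pos_of_ne_zero hc) h
    omega
  have hcard := hdc p hpc
  obtain ⟨χ, hχ, -⟩ := extend (p := p) (fun _ => 1) ∅ (fun j hj => absurd hj (Set.notMem_empty j))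
  have hd2 : (0 : ℝ) < (δ / 2) ^ r := by positivity
  have h1 : (d : ℝ) < (δ / 2) ^ r * p := by
    have h2 : (d : ℝ) / (δ / 2) ^ r < p := by
      have : (0 : ℝ) < 2 / δ := by positivity
      linarith
    rwa [div_lt_iff₀ hd2, mul_comm] at h2
  have h3 : 1 / (p : ℝ) ≤ δ / 2 := by
    have h4 : 2 / δ < p := by
      have : (0 : ℝ) ≤ (d : ℝ) / (δ / 2) ^ r := by positivity
      linarith
    rw [div_lt_iff₀ hδ] at h4
    rw [div_le_div_iff₀ hpp (by norm_num)]
    linarith
  have hG : N829.QD.GdN (p := p) BadA (δ / 2) r 0 (N829.QD.dat χ (Fin.elim0 : Fin 0 → ℕ)) := by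
    refine N829.QD.gd_init ?_ _
    have h5 : ((((Z p r).filter fun D => BadA r D).card : ℕ) : ℝ) * p ≤
        d * (p : ℝ) ^ (r ^ 2 + r) := by
      exact_mod_cast hcard
    have h6 : ((((Z p r).filter fun D => BadA r D).card : ℕ) : ℝ) * p <
        ((δ / 2) ^ r * (p : ℝ) ^ (r ^ 2 + r)) * p := by
      refine lt_of_le_of_lt h5 ?_
      calc (d : ℝ) * (p : ℝ) ^ (r ^ 2 + r) < ((δ / 2) ^ r * p) * (p : ℝ) ^ (r ^ 2 + r) :=
            mul_lt_mul_of_pos_right h1 (by positivity)
        _ = ((δ / 2) ^ r * (p : ℝ) ^ (r ^ 2 + r)) * p := by ring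
    exact lt_of_mul_lt_mul_right h6 hpp.le
  have := most_of (p := p) (by omega) χ hχ (η := δ / 2) (δ := δ) (by positivity)
    (by linarith) r 0 (Fin.elim0 : Fin 0 → ℕ) (fun i => i.elim0) (fun i => i.elim0)
    (fun i => i.elim0) hG
  rwa [Set.range_eq_empty] at this

/-- **Symplectic representations with transvection inertia.** For every `r` there is a nonzero
integral polynomial `P` such that `Criterion r P` holds; and for every `δ > 0` and all large `p` the
statement `TameTrivial` holds for all sets of `r` primes `≡ 1 mod p` but a proportion of `δ`. -/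
theorem result (r : ℕ) :
    (∃ P : MvPolynomial (Variables r) ℤ, P ≠ 0 ∧ Criterion r P) ∧
    ∀ δ : ℝ, 0 < δ → ∃ p₀ : ℕ, ∀ (p : ℕ) [Fact p.Prime], p₀ ≤ p →
      Most p δ (TameTrivial p) r ∅ := by
  refine ⟨?_, most r⟩
  obtain ⟨P, hP0, hP⟩ := exists_poly_gdA (Fin r)
  refine ⟨P, hP0, ?_⟩
  intro p _ hp2 S hS q hq hSq χ hχ hne
  refine tame_of_gd hp2 S hS q hq hSq χ hχ (hP p _ _ ?_)
  exact hne

end Pool.Agent.Results.MP_f68ac8_nt.TransvectionInertia
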