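import Pool.Agent.T9h32.EE.Fld
import Pool.Agent.T9h32.EE.Alg
import Pool.Agent.T9h32.EE.Cert

/-!
# Representations of any dimension with inertia of echelon two: most sets of five primes

Let `δ > 0`. For all large primes `p` the following holds. For all primes `q₁ ≡ 1 mod p` but a
proportion of at most `δ`, for all primes `q₂ ≡ 1 mod p` but a proportion of at most `δ`, and so on
until `q₅`, let `S` be a finite set which consists of some of the `q_i` and of primes
`≢ 0, 1 mod p`. Let `F` be any field with a nonarchimedean absolute value `|p| < 1` (for example a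
finite extension of `ℚ_p`, or `ℂ_p`, or `𝔽_q((t))`), let `n` be any natural number, and let
`ρ : Gal(ℚbar/ℚ) → GL_n(F)` be a continuous representation whose image is a pro-`p` group, which is
unramified outside `S` (so also at `p`), and such that `(ρ(τ) - 1)² = 0` for all `τ` in the inertia
groups at the `q_i` in `S` (unipotent of echelon two, as for the Tate modules of semistable abelian
varieties). Then the image of `ρ` is finite, and `ρ` is trivial if `F` has characteristic zero.

The same is true for torsion coefficients, uniformly: let the absolute Galois group act on any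
discrete `p`-primary abelian group `M` (not necessarily of finite rank), unramified outside `S`,
through a pro-`p` group, with `(ρ(τ) - 1)² = 0` as above. Then the image of the group in `End(M)` is
finite, all products `(ρ(g₁) - 1) ⋯ (ρ(g₇) - 1)` of seven factors are zero, and
`p ^ 6 (ρ(g) x - x) = 0` for all `g` and `x`.

More precisely, there is a nonzero integral polynomial `P` in the linking numbers `λ i j`, `i ≠ j`,
and the classes `u i` of `(q i - 1) / p` modulo `p`, which depends neither on `p` nor on `n`, `F` or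
`M`, such that `P(λ, u) ≠ 0` in `ℤ/p` implies the statement for `q 0, …, q 4`, for all primes `p`.
(If all five `q_i` are in `S`, the Galois group of the maximal `p`-extension of `ℚ` unramified outside
`S` is infinite.) So there are no such representations with infinite image, as the conjecture of
Fontaine and Mazur predicts.

Proof. Let `M` be finite, and let `I` be the ring of `ℤ`-combinations of products of the `ρ(g) - 1`.
It is generated by the `x_i = ρ(τ_i) - 1` for one inertia generator `τ_i` for each `q_i` (Minkowski,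
Burnside), and the local relations `τ_i ^ q_i = σ_i τ_i σ_i⁻¹` at the `q_i` give, modulo terms of
higher degree (where `p` has degree one), `∑_j λ i j (x_i x_j - x_j x_i) = u_i p x_i` and `x_i² = 0`. For the graded algebra over `ℤ/p[π]` with generators `x_1, …, x_5` and the relations
`x_i² = 0`, `∑_j λ i j [x_i, x_j] = u_i π x_i`, the part of degree `7` in the ideal of the `x_i`
vanishes for algebraically independent `λ` and `u`: it is enough to find one point `(λ, u)` in one
field, and `λ i j = 0` for `j = i + 1`, `λ i j = 1` otherwise, `u i = 1` over `𝔽₃` is such a point. This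
is checked by the kernel (`T9h32/EE/Cert.lean`): the relations are multiplied by words and reduced
degree by degree, with elimination certificates; the dimensions are `1, 5, 15, 35, 65, 86, 31, 0`. So
all products of degree `7` are in the sum of the products of higher degree, and hence they vanish
(Nakayama). The case of discrete modules follows from the case of finite ones, and the case of fields
from the case of the discrete module `F^n / B`, where `B` is a stable open subgroup. By Schwartz and Zippel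
a proportion of `O(1/p)` of the systems `(λ, u)` is bad, and the linking numbers of a new prime with
the given ones are equidistributed up to scaling (`Pool.Agent.Q202.QT.densN` of helper202,
Chebotarev). The nested counting is that of `FourPrimes`.
-/

set_option autoImplicit false

open NumberField

namespace Pool.Agent.Results.MP_f68ac8_nt.UnipotentEchelonTwo

open Finset Filter Matrix
open Pool.Agent.Q202.RT Pool.Agent.Q202.QT
open Pool.Agent.T9h32.EE (BadE badE_scInv badE_card exists_poly GdE GdEd gdE_seven smooth_main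
  field_main qw pw lam0 u0)
open Pool.Agent.W569.TG (lk)

/-- the absolute Galois group of `ℚ`, with the Krull topology -/
abbrev AbsGal : Type := Gal(AlgebraicClosure ℚ/ℚ)

/-- `τ` lies in the inertia group at the ideal `P` of the ring of all algebraic integers. -/
def InInertia (P : Ideal (𝓞 (AlgebraicClosure ℚ))) (τ : AbsGal) : Prop :=
  ∀ x : 𝓞 (AlgebraicClosure ℚ), τ • x - x ∈ P

/-- `ρ` is trivial on the inertia groups at all maximal ideals of the ring of all algebraic integers
which contain no `l ∈ S`. -/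
def UnramifiedOutside {R : Type} [One R] (S : Finset ℕ) (ρ : AbsGal → R) : Prop :=
  ∀ P : Ideal (𝓞 (AlgebraicClosure ℚ)), P.IsMaximal →
    (∀ l ∈ S, (l : 𝓞 (AlgebraicClosure ℚ)) ∉ P) → ∀ τ, InInertia P τ → ρ τ = 1

/-- `(ρ(τ) - 1)² = 0` for all elements `τ` of the inertia groups at the primes above the `l ∈ S` with
`l ≡ 1 mod p`. -/
def EchelonTwo {R : Type} [Ring R] (p : ℕ) (S : Finset ℕ) (ρ : AbsGal → R) : Prop :=
  ∀ l ∈ S, p ∣ l - 1 → ∀ P : Ideal (𝓞 (AlgebraicClosure ℚ)), P.IsMaximal →
    (l : 𝓞 (AlgebraicClosure ℚ)) ∈ P → ∀ τ, InInertia P τ → (ρ τ - 1) * (ρ τ - 1) = 0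

/-- `FieldCase p S`: let `F` be a field with a nontrivial nonarchimedean absolute value, `|p| < 1`,
let `n` be a natural number, and `ρ` a continuous representation of the absolute Galois group of `ℚ`
in `GL_n(F)` with pro-`p` image (for every `g` the powers `ρ(g) ^ (p ^ k)` tend to `1`), unramified
outside `S`, and of echelon two. Then the image of `ρ` is finite, and `ρ` is trivial if `p` is not
zero in `F`. -/
def FieldCase (p : ℕ) (S : Finset ℕ) : Prop :=
  ∀ (F : Type) [NontriviallyNormedField F] [IsUltrametricDist F], ‖(p : F)‖ < 1 →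
    ∀ (n : ℕ) (ρ : AbsGal →* GL (Fin n) F), Continuous ρ →
      (∀ g, Tendsto (fun k : ℕ => ρ g ^ p ^ k) atTop (nhds 1)) → UnramifiedOutside S ρ →
      EchelonTwo p S (fun g => (ρ g : Matrix (Fin n) (Fin n) F)) →
      (Set.range ρ).Finite ∧ ((p : F) ≠ 0 → ∀ g, ρ g = 1)

/-- `ModuleCase p S`: let `M` be an abelian group all of whose elements have `p`-power order, with an
action `ρ` of the absolute Galois group of `ℚ` such that all stabilisers are open, every `g` acts on
every element with `p`-power order, unramified outside `S`, and of echelon two. Then the image of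
`ρ` is finite, `p ^ 6 (ρ(g) x - x) = 0`, and the products `(ρ(g₁) - 1) ⋯ (ρ(g₇) - 1)` are zero. -/
def ModuleCase (p : ℕ) (S : Finset ℕ) : Prop :=
  ∀ (M : Type) [AddCommGroup M] (ρ : AbsGal →* AddMonoid.End M),
    (∀ x : M, ∃ k, p ^ k • x = 0) → (∀ x : M, ∀ᶠ g in nhds (1 : AbsGal), ρ g x = x) →
      (∀ g, ∀ x : M, ∃ k, (ρ g ^ p ^ k) x = x) → UnramifiedOutside S ρ → EchelonTwo p S ρ →
      (Set.range ρ).Finite ∧ (∀ g, ∀ x : M, p ^ 6 • (ρ g x - x) = 0) ∧
        ∀ w : List AbsGal, w.length = 7 → (w.map fun g => ρ g - 1).prod = 0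

/-- both statements -/
def EchelonTwoTame (p : ℕ) (S : Finset ℕ) : Prop := FieldCase p S ∧ ModuleCase p S

/-- The linking number `λ l j` of the distinct primes `l` and `j`: the value of the homomorphism
`χ j : (ℤ/j)ˣ → ℤ/p` at the class of `l` (and `0` if `l` and `j` are not coprime). -/
noncomputable def linking {p : ℕ} (χ : ∀ j : ℕ, (ZMod j)ˣ →* Multiplicative (ZMod p))
    (l j : ℕ) : ZMod p :=
  open Classical in if h : Nat.Coprime l j then
    Multiplicative.toAdd (χ j (ZMod.unitOfCoprime l h)) else 0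

/-- The variables of the polynomial: `λ i j` for `i ≠ j`, and `u i`. -/
abbrev Variables : Type := {x : Fin 5 × Fin 5 // x.1 ≠ x.2} ⊕ Fin 5

/-- The linking numbers `λ i j` of the numbers `q i`, and the classes `u i` of `(q i - 1) / p`
modulo `p`. -/
noncomputable def numbers {p : ℕ} (χ : ∀ j : ℕ, (ZMod j)ˣ →* Multiplicative (ZMod p))
    (q : Fin 5 → ℕ) : Variables → ZMod p :=
  Sum.elim (fun x => linking χ (q x.1.1) (q x.1.2)) fun i => (((q i - 1) / p : ℕ) : ZMod p)

/-- `Criterion P`: let `p` be a prime number and `S` a finite set of prime numbers `l ≠ p` whose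
members congruent to `1` modulo `p` are among the five different numbers `q 0, …, q 4`. If the
value of `P` at the linking numbers and at the classes of the `(q i - 1) / p` is not zero in `ℤ/p`,
for some nontrivial homomorphisms `χ l`, then `EchelonTwoTame p S` holds. -/
def Criterion (P : MvPolynomial Variables ℤ) : Prop :=
  ∀ (p : ℕ) [Fact p.Prime], ∀ S : Finset ℕ, (∀ l ∈ S, l.Prime ∧ l ≠ p) →
    ∀ q : Fin 5 → ℕ, Function.Injective q → (∀ l ∈ S, p ∣ l - 1 → ∃ i, l = q i) →
    ∀ χ : ∀ j : ℕ, (ZMod j)ˣ →* Multiplicative (ZMod p), (∀ l ∈ S, p ∣ l - 1 → ∃ x, χ l x ≠ 1) →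
    MvPolynomial.aeval (numbers χ q) P ≠ 0 → EchelonTwoTame p S

/-- `TameTrivial p T`: `EchelonTwoTame p S` holds for all finite sets `S` of prime numbers `l ≠ p`
whose members congruent to `1` modulo `p` are in `T`. -/
def TameTrivial (p : ℕ) (T : Set ℕ) : Prop :=
  ∀ S : Finset ℕ, (∀ l ∈ S, l.Prime ∧ l ≠ p) → (∀ l ∈ S, p ∣ l - 1 → l ∈ T) → EchelonTwoTame p S

open Classical in
/-- The primes `q ≤ x` with `p ∣ q - 1`. -/
noncomputable def Pr (p x : ℕ) : Finset ℕ := (range (x + 1)).filter fun q => q.Prime ∧ p ∣ q - 1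

open Classical in
/-- `Most p δ R m T`: for all primes `q₁ ≡ 1 mod p`, `q₁ ∉ T`, but a proportion of at most `δ`, for all
primes `q₂ ≡ 1 mod p`, `q₂ ∉ T ∪ {q₁}`, but a proportion of at most `δ`, …, for all primes
`q_m ≡ 1 mod p`, `q_m ∉ T ∪ {q₁, …, q_{m-1}}`, but a proportion of at most `δ`, the set
`T ∪ {q₁, …, q_m}` has the property `R`. -/
def Most (p : ℕ) (δ : ℝ) (R : Set ℕ → Prop) : ℕ → Set ℕ → Prop
  | 0, T => R T
  | m + 1, T => ∀ ε : ℝ, 0 < ε → ∀ᶠ x : ℕ in atTop, (1 - δ - ε) * ((Pr p x).card : ℝ) ≤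
      (((Pr p x).filter fun q => q ∉ T ∧ Most p δ R m (insert q T)).card : ℝ)

theorem Pr_eq (p x : ℕ) [Fact p.Prime] : Pr p x = P1 p x := by
  ext l
  rw [mem_P1, Pr, mem_filter, mem_range]
  constructor
  · rintro ⟨h1, h2, h3⟩
    exact ⟨by omega, h2, h3⟩
  · rintro ⟨h1, h2, h3⟩
    exact ⟨by omega, h2, h3⟩

section
variable {p : ℕ} [Fact p.Prime]

theorem tame_of_gd (S : Finset ℕ) (hS : ∀ l ∈ S, l.Prime ∧ l ≠ p)
    (q : Fin 5 → ℕ) (hq : Function.Injective q) (hSq : ∀ l ∈ S, p ∣ l - 1 → ∃ i, l = q i)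
    (χ : ∀ j : ℕ, (ZMod j)ˣ →* Multiplicative (ZMod p)) (hχ : ∀ l ∈ S, p ∣ l - 1 → ∃ x, χ l x ≠ 1)
    (hG : GdE 7 (fun i j => lk χ (q i) (q j)) (fun i => lv p (q i))) : EchelonTwoTame p S := by
  obtain ⟨d⟩ := Pool.Agent.TH831.NA.exists_dt S hS χ hχ
  have hT : ∀ l ∈ Pool.Agent.T9h32.GA.TT p S, l ∈ S ∧ p ∣ l - 1 := fun l hl =>
    Pool.Agent.T9h32.GA.mem_TT.1 hl
  refine ⟨?_, ?_⟩
  · intro F _ _ hpF n ρ hρ hpp hur hsq
    refine field_main (D := 7) d hS hpF hρ ?_ ?_ ?_ hq ?_ (by norm_num) hG
    · intro g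
      have h1 : Tendsto (fun k : ℕ => ((ρ g ^ p ^ k : GL (Fin n) F) :
          Matrix (Fin n) (Fin n) F)) atTop (nhds ((1 : GL (Fin n) F) : Matrix (Fin n) (Fin n) F)) :=
        (Units.continuous_val.tendsto 1).comp (hpp g)
      exact h1
    · rintro g ⟨P, hP, hSP, hτ⟩
      exact hur P hP hSP g hτ
    · intro l hl
      obtain ⟨hl1, hpl⟩ := hT l hl
      have hP := d.hP l (hS l hl1).1
      exact hsq l hl1 hpl (d.P l) hP.1 hP.2 (d.τ l) (d.hτ l hl1 hpl)
    · intro l hl
      obtain ⟨hl1, hpl⟩ := hT l hl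
      exact hSq l hl1 hpl
  · intro M _ ρ htor hsm hpp hur hsq
    have h := smooth_main (D := 7) d hS hsm htor hpp (fun g ⟨P, hP, hSP, hτ⟩ => hur P hP hSP g hτ)
      (fun l hl => by
        obtain ⟨hl1, hpl⟩ := hT l hl
        have hP := d.hP l (hS l hl1).1
        exact hsq l hl1 hpl (d.P l) hP.1 hP.2 (d.τ l) (d.hτ l hl1 hpl)) hq
      (fun l hl => by
        obtain ⟨hl1, hpl⟩ := hT l hl
        exact hSq l hl1 hpl) (by norm_num) hG
    refine ⟨h.1, fun g x => ?_, fun w hw => ?_⟩
    · have h1 := h.2 6 [g] (List.cons_ne_nil _ _) (le_refl 7)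
      have h2 : (qw p ρ 6 [g]) x = (0 : AddMonoid.End M) x :=
        congrArg (fun f : AddMonoid.End M => f x) h1
      rw [qw, Pool.Agent.T9h32.EE.pe_apply, Pool.Agent.T9h32.EE.pw_cons_apply] at h2
      exact h2
    · have h1 := h.2 0 w (by
        rintro rfl
        exact absurd hw (by decide)) (le_of_eq ((zero_add _).trans hw).symm)
      rw [qw, pow_zero, one_mul] at h1
      exact h1

theorem good_of (χ : ∀ j : ℕ, (ZMod j)ˣ →* Multiplicative (ZMod p))
    (hχ : Kr χ) {k : ℕ} (hk : k = 5) (l : Fin k → ℕ) (hli : Function.Injective l)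
    (hG : ¬ BadE 5 7 k (N829.QD.dat χ l)) : TameTrivial p (Set.range l) := by
  subst hk
  unfold BadE at hG
  push Not at hG
  obtain ⟨-, g2⟩ := hG
  intro S hS hT
  refine tame_of_gd S hS l hli (fun q hq h => ?_) χ (fun q hq hpq => (hχ q (hS q hq).1 hpq).1) ?_
  · obtain ⟨i, hi⟩ := hT q hq h
    exact ⟨i, hi.symm⟩
  · exact g2 rfl

theorem most_of (hp2 : p ≠ 2) (χ : ∀ j : ℕ, (ZMod j)ˣ →* Multiplicative (ZMod p))
    (hχ : Kr χ) {η δ : ℝ} (hη : 0 < η) (hδ : η + 1 / p ≤ δ) (m : ℕ) : ∀ (k : ℕ), k + m = 5 →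
    ∀ l : Fin k → ℕ, (∀ i, (l i).Prime) → (∀ i, p ∣ l i - 1) → Function.Injective l →
      N829.QD.GdN (BadE 5 7) η m k (N829.QD.dat χ l) → Most p δ (TameTrivial p) m (Set.range l) := by
  classical
  have hp : p.Prime := Fact.out
  have hp0 : (0 : ℝ) < p := by exact_mod_cast hp.pos
  have hp1 : (1 : ℝ) ≤ p := by exact_mod_cast hp.one_lt.le
  induction m with
  | zero =>
    intro k hk l hl hpl hli hG
    exact good_of χ hχ hk l hli (N829.QD.gd_zero hG)
  | succ m ih =>
    intro k hk l hl hpl hli hG ε hε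
    have hst := N829.QD.gd_step hη hG
    obtain ⟨Good, hGood⟩ : ∃ G : (Fin (k + 1) → ZMod p) → (Fin (k + 1) → ZMod p) → Prop,
        G = fun w s => w ≠ 0 ∧ N829.QD.GdN (BadE 5 7) η m (k + 1) (ext (N829.QD.dat χ l) w s) :=
      ⟨_, rfl⟩
    have hst' : (1 - η) * ((p : ℝ) ^ (k + 1) * (p : ℝ) ^ (k + 1)) - (p : ℝ) ^ (k + 1) ≤
        ((∑ w : Fin (k + 1) → ZMod p,
          ((univ : Finset (Fin (k + 1) → ZMod p)).filter fun s => Good w s).card : ℕ) : ℝ) := by
      subst hGood
      convert hst
    have hd := densN (p := p) hp2 χ hχ l hl hpl hli Good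
      (fun w s h => by rw [hGood] at h; exact h.1) (fun w s c hc h => by
        rw [hGood] at h ⊢
        refine ⟨fun h0 => h.1 (by
          funext j
          exact (mul_eq_zero.1 (congrFun h0 j)).resolve_left hc), ?_⟩
        unfold N829.QD.GdN
        rw [N829.QD.Nb_wsc (badE_scInv 5 7) m k hc]
        exact h.2) (1 - δ) (by
        have : (0 : ℝ) < 1 / p := by positivity
        linarith) (by
        rw [le_div_iff₀ (by
          have : 0 < Fintype.card (Fin (k + 1) → ZMod p) := Fintype.card_pos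
          positivity), Fintype.card_fun, ZMod.card, Fintype.card_fin]
        refine le_trans ?_ (hst'.trans (le_of_eq (by congr!)))
        push_cast
        have h1 : (0 : ℝ) < (p : ℝ) ^ (k + 1) := by positivity
        have h2 : (p : ℝ) ^ (k + 1) * 1 ≤ (p : ℝ) ^ (k + 1) * ((1 / p) * (p : ℝ) ^ (k + 1)) := by
          refine mul_le_mul_of_nonneg_left ?_ h1.le
          rw [pow_succ, one_div, mul_comm ((p : ℝ) ^ k), inv_mul_cancel_left₀ hp0.ne']
          exact one_le_pow₀ hp1
        have h3 : (1 - δ) * ((p : ℝ) ^ (k + 1) * (p : ℝ) ^ (k + 1)) ≤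
            (1 - η - 1 / p) * ((p : ℝ) ^ (k + 1) * (p : ℝ) ^ (k + 1)) :=
          mul_le_mul_of_nonneg_right (by linarith) (by positivity)
        linarith) ε hε
    filter_upwards [hd] with x hx
    rw [Pr_eq]
    refine le_trans hx (Nat.cast_le.2 (card_le_card ?_))
    intro q hq
    obtain ⟨h1, h2, h34⟩ := (@Finset.mem_filter _ _ _ _ _).1 hq
    rw [hGood] at h34
    obtain ⟨h3, h4⟩ := h34
    obtain ⟨-, hqp, hpq⟩ := mem_P1.1 h1
    simp only [Finset.mem_filter]
    refine ⟨h1, fun ⟨i, hi⟩ => h2 i hi.symm, ?_⟩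
    rw [← Fin.range_cons]
    refine ih (k + 1) (by omega) (Fin.cons q l) ?_ ?_ ?_ ?_
    · intro i
      refine Fin.cases ?_ (fun j => ?_) i
      · exact hqp
      · exact hl j
    · intro i
      refine Fin.cases ?_ (fun j => ?_) i
      · exact hpq
      · exact hpl j
    · rw [Fin.cons_injective_iff]
      exact ⟨fun ⟨i, hi⟩ => h2 i hi.symm, hli⟩
    · rw [N829.QD.dat_cons χ l hqp]
      exact h4

end

theorem most (δ : ℝ) (hδ : 0 < δ) :
    ∃ p₀ : ℕ, ∀ (p : ℕ) [Fact p.Prime], p₀ ≤ p → Most p δ (TameTrivial p) 5 ∅ := by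
  classical
  obtain ⟨d, c, hc, hdc⟩ := badE_card 5 7 gdE_seven
  obtain ⟨B, hB⟩ := exists_nat_gt ((d : ℝ) / (δ / 2) ^ 5 + 2 / δ)
  refine ⟨3 + c + B, ?_⟩
  intro p _ hp0
  have hp : p.Prime := Fact.out
  have hpp : (0 : ℝ) < p := by exact_mod_cast hp.pos
  have hBp : (B : ℝ) ≤ p := by
    have : B ≤ p := by omega
    exact_mod_cast this
  have hpc : ¬ p ∣ c := fun h => by
    have := Nat.le_of_dvd (Nat.pos_of_ne_zero hc) h
    omega
  have hcard := hdc p hpc
  obtain ⟨χ, hχ, -⟩ := extend (p := p) (fun _ => 1) ∅ (fun j hj => absurd hj (Set.notMem_empty j))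
  have hd2 : (0 : ℝ) < (δ / 2) ^ 5 := by positivity
  have h1 : (d : ℝ) < (δ / 2) ^ 5 * p := by
    have h2 : (d : ℝ) / (δ / 2) ^ 5 < p := by
      have : (0 : ℝ) < 2 / δ := by positivity
      linarith
    rwa [div_lt_iff₀ hd2, mul_comm] at h2
  have h3 : 1 / (p : ℝ) ≤ δ / 2 := by
    have h4 : 2 / δ < p := by
      have : (0 : ℝ) ≤ (d : ℝ) / (δ / 2) ^ 5 := by positivity
      linarith
    rw [div_lt_iff₀ hδ] at h4
    rw [div_le_div_iff₀ hpp (by norm_num)]
    linarith
  have hG : N829.QD.GdN (p := p) (BadE 5 7) (δ / 2) 5 0 (N829.QD.dat χ (Fin.elim0 : Fin 0 → ℕ)) := by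
    refine N829.QD.gd_init ?_ _
    have h5 : ((((Z p 5).filter fun D => BadE 5 7 5 D).card : ℕ) : ℝ) * p ≤
        d * (p : ℝ) ^ (5 ^ 2 + 5) := by
      exact_mod_cast hcard
    have h6 : ((((Z p 5).filter fun D => BadE 5 7 5 D).card : ℕ) : ℝ) * p <
        ((δ / 2) ^ 5 * (p : ℝ) ^ (5 ^ 2 + 5)) * p := by
      refine lt_of_le_of_lt h5 ?_
      calc (d : ℝ) * (p : ℝ) ^ (5 ^ 2 + 5) < ((δ / 2) ^ 5 * p) * (p : ℝ) ^ (5 ^ 2 + 5) :=
            mul_lt_mul_of_pos_right h1 (by positivity)
        _ = ((δ / 2) ^ 5 * (p : ℝ) ^ (5 ^ 2 + 5)) * p := by ring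
    exact lt_of_mul_lt_mul_right h6 hpp.le
  have := most_of (p := p) (by omega) χ hχ (η := δ / 2) (δ := δ) (by positivity)
    (by linarith) 5 0 rfl (Fin.elim0 : Fin 0 → ℕ) (fun i => i.elim0) (fun i => i.elim0)
    (fun i => i.elim0) hG
  rwa [Set.range_eq_empty] at this

/-- **Inertia of echelon two, five primes.** There is a nonzero integral polynomial `P` such that
`Criterion P` holds; and for every `δ > 0` and all large `p` the statement `TameTrivial` holds for all
sets of five primes `≡ 1 mod p` but a proportion of `δ`. -/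
theorem result :
    (∃ P : MvPolynomial Variables ℤ, P ≠ 0 ∧ Criterion P) ∧
    ∀ δ : ℝ, 0 < δ → ∃ p₀ : ℕ, ∀ (p : ℕ) [Fact p.Prime], p₀ ≤ p →
      Most p δ (TameTrivial p) 5 ∅ := by
  refine ⟨?_, most⟩
  obtain ⟨P, hP0, hP⟩ := exists_poly 7 gdE_seven
  refine ⟨P, hP0, ?_⟩
  intro p _ S hS q hq hSq χ hχ hne
  refine tame_of_gd S hS q hq hSq χ hχ (hP (ZMod p) _ _ ?_)
  exact hne

end Pool.Agent.Results.MP_f68ac8_nt.UnipotentEchelonTwo
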